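import Pool.Agent.Y39.DI.Norm
import Pool.Agent.Y39.DH.Alg
import Pool.Agent.Y928.QN.Rel

/-!
# Simultaneous approximation by algebraic numbers of bounded degree

If `θ` has a transcendence measure of polynomial type in every degree and satisfies an algebraic
relation over `ℤ[x_1, …, x_J]`, then for every `d` there is a measure of simultaneous approximation
of `x_1, …, x_J` by algebraic numbers of degree at most `d`, polynomial in the height.
-/

set_option autoImplicit false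

namespace Pool.Agent.Y39.DI

open Polynomial NumberField Finset Pool.Agent.Y928.QN
open Pool.Agent.H301R2.TR (IntD)
open Pool.Agent.TH456.TM (MeasT)

/-- a number field that contains finitely many algebraic numbers of bounded degree -/
theorem exists_field {J d H : ℕ} (ξ : Fin J → ℂ) (h : ∀ j, AlgHt d H (ξ j)) :
    ∃ (K : Type) (_ : Field K) (_ : NumberField K) (φ : K →+* ℂ),
      Module.finrank ℚ K ≤ (d + 1) ^ J ∧ ∃ w : Fin J → K, ∀ j, φ (w j) = ξ j := by
  classical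
  have key : ∀ s : Finset (Fin J),
      FiniteDimensional ℚ (s.sup fun j => IntermediateField.adjoin ℚ {ξ j} :
        IntermediateField ℚ ℂ) ∧
      Module.finrank ℚ (s.sup fun j => IntermediateField.adjoin ℚ {ξ j} :
        IntermediateField ℚ ℂ) ≤ (d + 1) ^ s.card := by
    intro s
    induction s using Finset.induction_on with
    | empty =>
      rw [Finset.sup_empty]
      refine ⟨inferInstance, ?_⟩
      rw [IntermediateField.finrank_bot, Finset.card_empty, pow_zero]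
    | insert a s ha ih =>
      obtain ⟨ih1, ih2⟩ := ih
      obtain ⟨h1, h2⟩ := adjoin_finrank_le (h a)
      rw [Finset.sup_insert, Finset.card_insert_of_notMem ha]
      have i1 := ih1
      have i2 := h2
      refine ⟨IntermediateField.finiteDimensional_sup _ _, ?_⟩
      refine (IntermediateField.finrank_sup_le _ _).trans ?_
      rw [pow_succ, mul_comm ((d + 1) ^ s.card)]
      exact Nat.mul_le_mul (by omega) ih2
  obtain ⟨h1, h2⟩ := key univ
  obtain ⟨K, hK⟩ : ∃ K : IntermediateField ℚ ℂ,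
    K = univ.sup fun j => IntermediateField.adjoin ℚ {ξ j} := ⟨_, rfl⟩
  rw [← hK] at h1 h2
  have hnf : NumberField K := by
    refine @NumberField.mk _ _ ?_ ?_
    · infer_instance
    · convert h1
  have hmem : ∀ j, ξ j ∈ K := by
    intro j
    have h3 : IntermediateField.adjoin ℚ {ξ j} ≤ K := by
      rw [hK]
      exact Finset.le_sup (f := fun j => IntermediateField.adjoin ℚ {ξ j}) (mem_univ j)
    exact h3 (IntermediateField.subset_adjoin ℚ _ (Set.mem_singleton _))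
  refine ⟨K, inferInstance, hnf, algebraMap K ℂ, ?_, fun j => ⟨ξ j, hmem j⟩, fun j => rfl⟩
  rw [Finset.card_univ, Fintype.card_fin] at h2
  convert h2

lemma lipC {J : ℕ} (f : MvPolynomial (Fin J) ℤ) (R : ℝ) (hR : 0 ≤ R) : ∃ K : ℝ, 0 ≤ K ∧
    ∀ x y : Fin J → ℂ, (∀ j, ‖x j‖ ≤ R) → (∀ j, ‖y j‖ ≤ R) → ∀ δ : ℝ, 0 ≤ δ →
      (∀ j, ‖x j - y j‖ ≤ δ) → ‖MvPolynomial.aeval x f - MvPolynomial.aeval y f‖ ≤ K * δ := by
  induction f using MvPolynomial.induction_on with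
  | C a =>
    refine ⟨0, le_rfl, fun x y _ _ δ _ _ => ?_⟩
    simp
  | add p q hp hq =>
    obtain ⟨K1, hK1, h1⟩ := hp
    obtain ⟨K2, hK2, h2⟩ := hq
    refine ⟨K1 + K2, by positivity, fun x y hx hy δ hδ h => ?_⟩
    have e1 := h1 x y hx hy δ hδ h
    have e2 := h2 x y hx hy δ hδ h
    rw [map_add, map_add, add_sub_add_comm, add_mul]
    exact (norm_add_le _ _).trans (add_le_add e1 e2)
  | mul_X p i hp =>
    obtain ⟨K, hK, h1⟩ := hp
    obtain ⟨M, hM⟩ : ∃ M : ℝ, M = ‖MvPolynomial.aeval (fun _ => (0 : ℂ)) p‖ + K * R := ⟨_, rfl⟩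
    have hM0 : 0 ≤ M := by rw [hM]; positivity
    refine ⟨R * K + M, by positivity, fun x y hx hy δ hδ h => ?_⟩
    have e1 := h1 x y hx hy δ hδ h
    have e2 : ‖MvPolynomial.aeval y p‖ ≤ M := by
      have e3 := h1 y (fun _ => 0) hy (fun j => by simpa using hR) R hR
        (fun j => by simpa using hy j)
      have e4 := norm_sub_norm_le (MvPolynomial.aeval y p)
        (MvPolynomial.aeval (fun _ => (0 : ℂ)) p)
      rw [hM]
      linarith
    rw [map_mul, map_mul, MvPolynomial.aeval_X, MvPolynomial.aeval_X]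
    have e5 : MvPolynomial.aeval x p * x i - MvPolynomial.aeval y p * y i =
        x i * (MvPolynomial.aeval x p - MvPolynomial.aeval y p) +
          (x i - y i) * MvPolynomial.aeval y p := by ring
    rw [e5]
    refine (norm_add_le _ _).trans ?_
    rw [norm_mul, norm_mul]
    have e6 : ‖x i‖ * ‖MvPolynomial.aeval x p - MvPolynomial.aeval y p‖ ≤ R * (K * δ) :=
      mul_le_mul (hx i) e1 (norm_nonneg _) hR
    have e7 : ‖x i - y i‖ * ‖MvPolynomial.aeval y p‖ ≤ δ * M :=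
      mul_le_mul (h i) e2 (norm_nonneg _) hδ
    linarith

/-- the sum of the absolute values of the coefficients -/
noncomputable def len {J : ℕ} (f : MvPolynomial (Fin J) ℤ) : ℝ := ∑ m ∈ f.support, |((f.coeff m : ℤ) : ℝ)|

lemma len_nonneg {J : ℕ} (f : MvPolynomial (Fin J) ℤ) : 0 ≤ len f :=
  Finset.sum_nonneg fun _ _ => abs_nonneg _

lemma deg_le {J : ℕ} (f : MvPolynomial (Fin J) ℤ) (D : ℕ) (hD : f.totalDegree ≤ D)
    {m : Fin J →₀ ℕ} (hm : m ∈ f.support) : ∑ j, m j ≤ D := by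
  refine le_trans ?_ hD
  have h2 := MvPolynomial.le_totalDegree hm
  rwa [Finsupp.sum_fintype _ _ (fun _ => rfl)] at h2

lemma integral_hom {J : ℕ} {K : Type} [Field K] (f : MvPolynomial (Fin J) ℤ) (D : ℕ)
    (hD : f.totalDegree ≤ D) (w : Fin J → K) (E : ℕ) (hE : ∀ j, IsIntegral ℤ ((E : K) * w j)) :
    IsIntegral ℤ ((E : K) ^ D * MvPolynomial.aeval w f) := by
  rw [MvPolynomial.aeval_def, MvPolynomial.eval₂_eq', Finset.mul_sum]
  refine IsIntegral.sum _ fun m hm => ?_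
  have h1 := deg_le f D hD hm
  have h3 : (E : K) ^ D = (E : K) ^ (D - ∑ j, m j) * (E : K) ^ (∑ j, m j) := by
    rw [← pow_add, Nat.sub_add_cancel h1]
  have h4 : (E : K) ^ (∑ j, m j) * ∏ j, w j ^ m j = ∏ j, ((E : K) * w j) ^ m j := by
    rw [← Finset.prod_pow_eq_pow_sum, ← Finset.prod_mul_distrib]
    exact Finset.prod_congr rfl fun j _ => (mul_pow _ _ _).symm
  have h5 : (E : K) ^ D * (algebraMap ℤ K (f.coeff m) * ∏ j, w j ^ m j) =
      algebraMap ℤ K (f.coeff m) * ((E : K) ^ (D - ∑ j, m j) * ∏ j, ((E : K) * w j) ^ m j) := by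
    rw [h3, ← h4]; ring
  rw [h5]
  refine (isIntegral_algebraMap).mul (IsIntegral.mul ?_ ?_)
  · exact (Pool.Agent.H301R2.TR.isIntegral_natCast' E).pow _
  · exact IsIntegral.prod _ fun j _ => (hE j).pow _

lemma norm_hom {J : ℕ} (f : MvPolynomial (Fin J) ℤ) (D : ℕ)
    (hD : f.totalDegree ≤ D) (y : Fin J → ℂ) (R : ℝ) (hR : 1 ≤ R) (hy : ∀ j, ‖y j‖ ≤ R) :
    ‖MvPolynomial.aeval y f‖ ≤ len f * R ^ D := by
  rw [MvPolynomial.aeval_def, MvPolynomial.eval₂_eq']
  refine (norm_sum_le _ _).trans ?_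
  unfold len
  rw [Finset.sum_mul]
  refine Finset.sum_le_sum fun m hm => ?_
  rw [norm_mul, algebraMap_int_eq, eq_intCast, Complex.norm_intCast]
  refine mul_le_mul_of_nonneg_left ?_ (abs_nonneg _)
  rw [norm_prod]
  have h1 := deg_le f D hD hm
  calc ∏ j, ‖y j ^ m j‖ ≤ ∏ j, R ^ m j := by
        refine Finset.prod_le_prod (fun j _ => norm_nonneg _) fun j _ => ?_
        rw [norm_pow]
        exact pow_le_pow_left₀ (norm_nonneg _) (hy j) _
    _ = R ^ ∑ j, m j := Finset.prod_pow_eq_pow_sum _ _ _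
    _ ≤ R ^ D := pow_le_pow_right₀ hR h1

/-- **The measure of simultaneous approximation by algebraic numbers.** -/
theorem alg_meas {J : ℕ} (x : Fin J → ℂ) (θ : ℂ) (hθ : MeasT θ)
    (P : Polynomial (MvPolynomial (Fin J) ℤ))
    (hP : ∑ i ∈ range (P.natDegree + 1), MvPolynomial.aeval x (P.coeff i) * θ ^ i = 0) (i0 : ℕ)
    (hi0 : MvPolynomial.aeval x (P.coeff i0) ≠ 0) (d : ℕ) :
    ∃ κ c : ℝ, 0 ≤ κ ∧ 0 < c ∧ ∀ H : ℕ, 1 ≤ H → ∀ ξ : Fin J → ℂ, (∀ j, AlgHt d H (ξ j)) →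
      ∀ δ : ℝ, 0 ≤ δ → (∀ j, ‖x j - ξ j‖ ≤ δ) → c ≤ (H : ℝ) ^ κ * δ := by
  obtain ⟨N, hN⟩ : ∃ N, N = P.natDegree := ⟨_, rfl⟩
  rw [← hN] at hP
  obtain ⟨n, hn⟩ : ∃ n, n = (d + 1) ^ J := ⟨_, rfl⟩
  have hn1 : 1 ≤ n := by rw [hn]; exact Nat.one_le_pow _ _ (by omega)
  obtain ⟨κ, c, hκ, hc, hm⟩ := hθ (n * N)
  obtain ⟨D, hD⟩ : ∃ D, D = 1 + ∑ i ∈ range (N + 1), (P.coeff i).totalDegree := ⟨_, rfl⟩
  have hDi : ∀ i, (P.coeff i).totalDegree ≤ D := by
    intro i
    by_cases hi : i ∈ range (N + 1)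
    · have := Finset.single_le_sum (f := fun i => (P.coeff i).totalDegree)
        (fun _ _ => Nat.zero_le _) hi
      omega
    · rw [mem_range] at hi
      rw [coeff_eq_zero_of_natDegree_lt (by omega), MvPolynomial.totalDegree_zero]
      exact Nat.zero_le _
  -- a bound for the lengths
  obtain ⟨Λ, hΛ⟩ : ∃ Λ : ℝ, Λ = 1 + ∑ i ∈ range (N + 1), len (P.coeff i) := ⟨_, rfl⟩
  have hΛ1 : 1 ≤ Λ := by
    rw [hΛ]
    have : 0 ≤ ∑ i ∈ range (N + 1), len (P.coeff i) := Finset.sum_nonneg fun _ _ => len_nonneg _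
    linarith
  have hΛi : ∀ i, len (P.coeff i) ≤ Λ := by
    intro i
    by_cases hi : i ∈ range (N + 1)
    · have := Finset.single_le_sum (f := fun i => len (P.coeff i)) (fun _ _ => len_nonneg _) hi
      rw [hΛ]; linarith
    · rw [mem_range] at hi
      rw [coeff_eq_zero_of_natDegree_lt (by omega)]
      unfold len
      simp only [MvPolynomial.support_zero, Finset.sum_empty]
      linarith
  obtain ⟨R, hR⟩ : ∃ R : ℝ, R = 1 + ∑ j, ‖x j‖ := ⟨_, rfl⟩
  have hR1 : 1 ≤ R := by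
    rw [hR]
    have : 0 ≤ ∑ j, ‖x j‖ := Finset.sum_nonneg fun _ _ => norm_nonneg _
    linarith
  have hxR : ∀ j, ‖x j‖ + 1 ≤ R := by
    intro j
    have := Finset.single_le_sum (f := fun j => ‖x j‖) (fun _ _ => norm_nonneg _) (mem_univ j)
    rw [hR]
    linarith
  choose K hK0 hK using fun i : ℕ => lipC (P.coeff i) R (by linarith)
  obtain ⟨B, hB⟩ : ∃ B : ℝ, B = 1 + ∑ i ∈ range (N + 1), K i * ‖θ‖ ^ i := ⟨_, rfl⟩
  have hB1 : 1 ≤ B := by
    rw [hB]
    have : 0 ≤ ∑ i ∈ range (N + 1), K i * ‖θ‖ ^ i :=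
      Finset.sum_nonneg fun i _ => mul_nonneg (hK0 i) (by positivity)
    linarith
  obtain ⟨c1, hc1⟩ : ∃ c1 : ℝ, c1 = ‖MvPolynomial.aeval x (P.coeff i0)‖ / (K i0 + 1) := ⟨_, rfl⟩
  have hK10 : 0 < K i0 + 1 := by linarith [hK0 i0]
  have hc10 : 0 < c1 := by rw [hc1]; exact div_pos (norm_pos_iff.mpr hi0) hK10
  obtain ⟨T, hT⟩ : ∃ T : ℝ, T = max 1 ‖θ‖ ^ N := ⟨_, rfl⟩
  have hT1 : 1 ≤ T := by rw [hT]; exact one_le_pow₀ (le_max_left _ _)
  -- the height of the norm is at most `(A * H ^ M) ^ n`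
  obtain ⟨A, hA⟩ : ∃ A : ℝ, A = (N + 1) * (Λ * 2 ^ D) * T := ⟨_, rfl⟩
  obtain ⟨M, hM⟩ : ∃ M : ℕ, M = J * D + D := ⟨_, rfl⟩
  have hN1 : (1 : ℝ) ≤ (N : ℝ) + 1 := by
    have : (0 : ℝ) ≤ N := Nat.cast_nonneg N
    linarith
  have hA1 : 1 ≤ A := by
    rw [hA]
    refine one_le_mul_of_one_le_of_one_le (one_le_mul_of_one_le_of_one_le hN1
      (one_le_mul_of_one_le_of_one_le hΛ1 (one_le_pow₀ (by norm_num)))) hT1
  obtain ⟨c0, hc0⟩ : ∃ c0 : ℝ, c0 = min (min 1 c1) (c / ((A ^ n) ^ κ * (B * A ^ n))) / 2 :=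
    ⟨_, rfl⟩
  have hAn : 1 ≤ A ^ n := one_le_pow₀ hA1
  have hAκ : 0 < (A ^ n) ^ κ := Real.rpow_pos_of_pos (by linarith) _
  have hc00 : 0 < c0 := by
    rw [hc0]
    have : 0 < B * A ^ n := by positivity
    positivity
  have hc01 : c0 < 1 := by
    rw [hc0]
    have := (min_le_left (min 1 c1) (c / ((A ^ n) ^ κ * (B * A ^ n)))).trans (min_le_left 1 c1)
    linarith
  have hc02 : c0 < c1 := by
    rw [hc0]
    have := (min_le_left (min 1 c1) (c / ((A ^ n) ^ κ * (B * A ^ n)))).trans (min_le_right 1 c1)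
    linarith
  have hc03 : c0 < c / ((A ^ n) ^ κ * (B * A ^ n)) := by
    rw [hc0]
    have := min_le_right (min 1 c1) (c / ((A ^ n) ^ κ * (B * A ^ n)))
    have h2 : 0 < c / ((A ^ n) ^ κ * (B * A ^ n)) := by
      have : 0 < B * A ^ n := by positivity
      positivity
    linarith
  refine ⟨(M * n : ℕ) * κ + (M * n + M : ℕ), c0, by positivity, hc00,
    fun H hH ξ hξ δ hδ hxξ => ?_⟩
  by_contra hcon
  push Not at hcon
  have hHR : (1 : ℝ) ≤ H := by exact_mod_cast hH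
  have hH0 : (0 : ℝ) < H := by linarith
  obtain ⟨Q, hQ⟩ : ∃ Q : ℝ, Q = (H : ℝ) ^ (((M * n : ℕ) : ℝ) * κ + ((M * n + M : ℕ) : ℝ)) :=
    ⟨_, rfl⟩
  have hQ1 : 1 ≤ Q := by
    rw [hQ]
    exact Real.one_le_rpow hHR (by positivity)
  rw [← hQ] at hcon
  have hδ1 : δ ≤ Q * δ := le_mul_of_one_le_left hδ hQ1
  have hδc1 : δ < c1 := by linarith
  have hδ1' : δ ≤ 1 := by linarith
  have hξR : ∀ j, ‖ξ j‖ ≤ R := by
    intro j
    have h1 := norm_sub_norm_le (ξ j) (x j)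
    rw [norm_sub_rev] at h1
    have h2 := hxξ j
    have h3 := hxR j
    linarith
  have hxR' : ∀ j, ‖x j‖ ≤ R := fun j => by linarith [hxR j]
  have hlip : ∀ i, ‖MvPolynomial.aeval x (P.coeff i) - MvPolynomial.aeval ξ (P.coeff i)‖ ≤
      K i * δ := fun i => hK i x _ hxR' hξR δ hδ hxξ
  -- the field
  obtain ⟨F, hFf, hFn, φ, hFd, w, hw⟩ := exists_field ξ hξ
  rw [← hn] at hFd
  choose e he0 heH heI heσ using fun j => (hξ j).lift (φ.toRatAlgHom) (w j) (hw j)
  obtain ⟨E, hE⟩ : ∃ E : ℕ, E = ∏ j, e j := ⟨_, rfl⟩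
  have hE0 : 0 < E := by rw [hE]; exact Finset.prod_pos fun j _ => he0 j
  have hEH : (E : ℝ) ≤ (H : ℝ) ^ J := by
    have h1 : E ≤ H ^ J := by
      rw [hE]
      refine (Finset.prod_le_pow_card _ _ H fun j _ => heH j).trans ?_
      rw [Finset.card_univ, Fintype.card_fin]
    exact_mod_cast h1
  have hEw : ∀ j, IsIntegral ℤ ((E : F) * w j) := by
    intro j
    have h1 := heI j
    unfold IntD at h1
    rw [pow_one] at h1
    have h2 : (E : F) * w j = ((∏ l ∈ univ.erase j, e l : ℕ) : F) * ((e j : F) * w j) := by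
      rw [← mul_assoc, ← Nat.cast_mul, mul_comm _ (e j), Finset.mul_prod_erase univ e (mem_univ j),
        hE]
    rw [h2]
    exact (Pool.Agent.H301R2.TR.isIntegral_natCast' _).mul h1
  have hint : ∀ i, IsIntegral ℤ ((E : F) ^ D * MvPolynomial.aeval w (P.coeff i)) := fun i =>
    integral_hom _ D (hDi i) w E hEw
  obtain ⟨u, hu⟩ : ∃ u : ℕ → 𝓞 F, ∀ i, ((u i : 𝓞 F) : F) =
      (E : F) ^ D * MvPolynomial.aeval w (P.coeff i) := ⟨fun i => ⟨_, hint i⟩, fun i => rfl⟩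
  obtain ⟨p, hp⟩ : ∃ p : (𝓞 F)[X], p = ∑ i ∈ range (N + 1), C (u i) * X ^ i := ⟨_, rfl⟩
  have hpc : ∀ i, p.coeff i = if i ∈ range (N + 1) then u i else 0 := by
    intro i
    rw [hp, finsetSum_coeff]
    simp only [coeff_C_mul_X_pow]
    rw [Finset.sum_ite_eq]
  have hpdeg : p.natDegree ≤ N := by
    rw [natDegree_le_iff_coeff_eq_zero]
    intro i hi
    rw [hpc, if_neg (by rw [mem_range]; omega)]
  have hσw : ∀ (σ : F →+* ℂ) (f : MvPolynomial (Fin J) ℤ),
      σ (MvPolynomial.aeval w f) = MvPolynomial.aeval (fun j => σ (w j)) f := by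
    intro σ f
    have := MvPolynomial.comp_aeval_apply (f := w) (σ.toIntAlgHom) f
    exact this
  have hembu : ∀ (σ : F →+* ℂ) (i : ℕ), emb σ (u i) =
      (E : ℂ) ^ D * MvPolynomial.aeval (fun j => σ (w j)) (P.coeff i) := by
    intro σ i
    have h1 : emb σ (u i) = σ ((u i : 𝓞 F) : F) := rfl
    rw [h1, hu, map_mul, map_pow, map_natCast, hσw]
  have hED : ((E : ℝ)) ^ D ≤ (H : ℝ) ^ (J * D) := by
    rw [pow_mul]
    exact pow_le_pow_left₀ (Nat.cast_nonneg _) hEH _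
  have hub : ∀ (σ : F →+* ℂ) (i : ℕ), ‖emb σ (p.coeff i)‖ ≤ Λ * 2 ^ D * (H : ℝ) ^ M := by
    intro σ i
    rw [hpc]
    split_ifs with hi
    · rw [hembu, norm_mul, norm_pow, Complex.norm_natCast]
      have h1 : ∀ j, ‖σ (w j)‖ ≤ (H : ℝ) + 1 := fun j => heσ j σ.toRatAlgHom
      have h2 := norm_hom (P.coeff i) D (hDi i) (fun j => σ (w j)) (H + 1) (by linarith) h1
      have h3 : ((H : ℝ) + 1) ^ D ≤ 2 ^ D * (H : ℝ) ^ D := by
        rw [← mul_pow]
        exact pow_le_pow_left₀ (by linarith) (by linarith) _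
      calc (E : ℝ) ^ D * ‖MvPolynomial.aeval (fun j => σ (w j)) (P.coeff i)‖ ≤
          (H : ℝ) ^ (J * D) * (Λ * (2 ^ D * (H : ℝ) ^ D)) :=
            mul_le_mul hED (h2.trans (mul_le_mul (hΛi i) h3 (by positivity) (by linarith)))
              (norm_nonneg _) (by positivity)
        _ = Λ * 2 ^ D * (H : ℝ) ^ M := by rw [hM, pow_add]; ring
    · rw [map_zero, norm_zero]
      positivity
  have hφw : (fun j => φ (w j)) = ξ := funext hw
  have hp0 : p ≠ 0 := by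
    intro h
    have hi0N : i0 ∈ range (N + 1) := by
      rw [mem_range]
      by_contra h2
      apply hi0
      rw [coeff_eq_zero_of_natDegree_lt (by omega), map_zero]
    have h1 : p.coeff i0 = 0 := by rw [h, coeff_zero]
    rw [hpc, if_pos hi0N] at h1
    have h2 := hembu φ i0
    rw [h1, map_zero, hφw] at h2
    have h3 : MvPolynomial.aeval ξ (P.coeff i0) = 0 := by
      rcases mul_eq_zero.mp h2.symm with h | h
      · exact absurd h (pow_ne_zero _ (by exact_mod_cast hE0.ne'))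
      · exact h
    have h4 := hlip i0
    rw [h3, sub_zero] at h4
    have h5 : K i0 * δ ≤ (K i0 + 1) * δ := by nlinarith [hK0 i0]
    have h6 : (K i0 + 1) * δ < (K i0 + 1) * c1 := mul_lt_mul_of_pos_left hδc1 hK10
    have h7 : (K i0 + 1) * c1 = ‖MvPolynomial.aeval x (P.coeff i0)‖ := by
      rw [hc1]; field_simp
    linarith
  have hHM : (1 : ℝ) ≤ (H : ℝ) ^ M := one_le_pow₀ hHR
  obtain ⟨Φ, hΦ0, hΦd, hΦc, hΦv⟩ := normPoly_bounds F p N n hpdeg hFd (Λ * 2 ^ D * (H : ℝ) ^ M)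
    (one_le_mul_of_one_le_of_one_le (one_le_mul_of_one_le_of_one_le hΛ1
      (one_le_pow₀ (by norm_num))) hHM) hub hp0
  have hAH : (N + 1 : ℝ) * (Λ * 2 ^ D * (H : ℝ) ^ M) ≤ A * (H : ℝ) ^ M := by
    rw [hA]
    have : (N + 1 : ℝ) * (Λ * 2 ^ D * (H : ℝ) ^ M) = ((N + 1) * (Λ * 2 ^ D) * (H : ℝ) ^ M) * 1 := by
      ring
    rw [this]
    have h2 : (N + 1 : ℝ) * (Λ * 2 ^ D) * T * (H : ℝ) ^ M =
      ((N + 1) * (Λ * 2 ^ D) * (H : ℝ) ^ M) * T := by ring
    rw [h2]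
    exact mul_le_mul_of_nonneg_left hT1 (by positivity)
  have hcf : ∀ i, |(Φ.coeff i : ℝ)| ≤ A ^ n * (H : ℝ) ^ (M * n) := by
    intro i
    refine (hΦc i).trans ?_
    rw [pow_mul, ← mul_pow]
    exact pow_le_pow_left₀ (by positivity) hAH _
  have hval : ‖aeval θ Φ‖ ≤ ((H : ℝ) ^ (J * D) * (B * δ)) * (A ^ n * (H : ℝ) ^ (M * n)) := by
    refine (hΦv θ φ).trans ?_
    refine mul_le_mul ?_ ?_ (by positivity) (by positivity)
    · have h1 : (p.map (emb φ)).eval θ = -((E : ℂ) ^ D * ∑ i ∈ range (N + 1),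
          (MvPolynomial.aeval x (P.coeff i) - MvPolynomial.aeval ξ (P.coeff i)) * θ ^ i) := by
        have h2 : (p.map (emb φ)).eval θ = ∑ i ∈ range (N + 1), emb φ (u i) * θ ^ i := by
          rw [hp, Polynomial.map_sum, eval_finsetSum]
          refine Finset.sum_congr rfl fun i _ => ?_
          simp
        have h3 : ∑ i ∈ range (N + 1), emb φ (u i) * θ ^ i =
            (E : ℂ) ^ D * ∑ i ∈ range (N + 1), MvPolynomial.aeval ξ (P.coeff i) * θ ^ i := by
          rw [Finset.mul_sum]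
          refine Finset.sum_congr rfl fun i _ => ?_
          rw [hembu, hφw, mul_assoc]
        have h4 : ∑ i ∈ range (N + 1), (MvPolynomial.aeval x (P.coeff i) -
            MvPolynomial.aeval ξ (P.coeff i)) * θ ^ i =
            ∑ i ∈ range (N + 1), MvPolynomial.aeval x (P.coeff i) * θ ^ i -
            ∑ i ∈ range (N + 1), MvPolynomial.aeval ξ (P.coeff i) * θ ^ i := by
          rw [← Finset.sum_sub_distrib]
          exact Finset.sum_congr rfl fun i _ => by ring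
        rw [h2, h3, h4, hP]
        ring
      rw [h1, norm_neg, norm_mul, norm_pow, Complex.norm_natCast]
      refine mul_le_mul hED ?_ (norm_nonneg _) (by positivity)
      refine (norm_sum_le _ _).trans ?_
      have h3 : ∑ i ∈ range (N + 1), ‖(MvPolynomial.aeval x (P.coeff i) -
          MvPolynomial.aeval ξ (P.coeff i)) * θ ^ i‖ ≤
          ∑ i ∈ range (N + 1), (K i * ‖θ‖ ^ i) * δ := by
        refine Finset.sum_le_sum fun i _ => ?_
        rw [norm_mul, norm_pow]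
        have h4 := mul_le_mul_of_nonneg_right (hlip i) (pow_nonneg (norm_nonneg θ) i)
        calc _ ≤ K i * δ * ‖θ‖ ^ i := h4
          _ = _ := by ring
      refine h3.trans ?_
      rw [← Finset.sum_mul]
      refine mul_le_mul_of_nonneg_right ?_ hδ
      rw [hB]
      linarith
    · rw [pow_mul, ← mul_pow]
      refine pow_le_pow_left₀ (by positivity) ?_ _
      rw [← hT, hA]
      exact le_of_eq (by ring)
  have hfin := hm Φ hΦ0 hΦd (A ^ n * (H : ℝ) ^ (M * n))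
    (one_le_mul_of_one_le_of_one_le hAn (one_le_pow₀ hHR)) hcf
  have h1 : (A ^ n * (H : ℝ) ^ (M * n)) ^ κ * ‖aeval θ Φ‖ ≤
      (A ^ n * (H : ℝ) ^ (M * n)) ^ κ *
        (((H : ℝ) ^ (J * D) * (B * δ)) * (A ^ n * (H : ℝ) ^ (M * n))) :=
    mul_le_mul_of_nonneg_left hval (Real.rpow_nonneg (by positivity) _)
  have h2 : (A ^ n * (H : ℝ) ^ (M * n)) ^ κ *
      (((H : ℝ) ^ (J * D) * (B * δ)) * (A ^ n * (H : ℝ) ^ (M * n))) ≤
      ((A ^ n) ^ κ * (B * A ^ n)) * (Q * δ) := by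
    rw [Real.mul_rpow (by positivity) (by positivity)]
    have e1 : ((H : ℝ) ^ (M * n)) ^ κ * ((H : ℝ) ^ (J * D) * (H : ℝ) ^ (M * n)) ≤ Q := by
      rw [hQ, Real.rpow_add hH0, Real.rpow_mul hH0.le, Real.rpow_natCast, Real.rpow_natCast]
      refine mul_le_mul_of_nonneg_left ?_ (Real.rpow_nonneg (by positivity) _)
      rw [← pow_add]
      refine pow_le_pow_right₀ hHR ?_
      rw [hM]
      nlinarith
    calc _ = ((A ^ n) ^ κ * (B * A ^ n)) *
          (((H : ℝ) ^ (M * n)) ^ κ * ((H : ℝ) ^ (J * D) * (H : ℝ) ^ (M * n)) * δ) := by ring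
      _ ≤ _ := mul_le_mul_of_nonneg_left (mul_le_mul_of_nonneg_right e1 hδ) (by positivity)
  have h4 : ((A ^ n) ^ κ * (B * A ^ n)) * c0 < c := by
    rw [lt_div_iff₀ (by positivity)] at hc03
    linarith
  have h5 : ((A ^ n) ^ κ * (B * A ^ n)) * (Q * δ) ≤ ((A ^ n) ^ κ * (B * A ^ n)) * c0 :=
    mul_le_mul_of_nonneg_left hcon.le (by positivity)
  linarith

end Pool.Agent.Y39.DI
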