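import Mathlib

/-!
# Eventually periodic patterns in a continued fraction

If the first `N` partial quotients of the irrational number `x` agree with an eventually periodic
sequence with preperiod `r` and period `s`, then `x` is very close to a root of an integer polynomial
of degree at most two whose coefficients are bounded in terms of the denominator `q_(r+s)`.
-/

set_option autoImplicit false

namespace Pool.Agent.Y39.DI

open Polynomial Finset

/-- the `n`-th complete quotient of `x` -/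
noncomputable def rem (x : ℝ) : ℕ → ℝ
  | 0 => x
  | n + 1 => (Int.fract (rem x n))⁻¹

/-- the `n`-th partial quotient of `x`, so that `x = [a_0; a_1, a_2, …]` -/
noncomputable def quot (x : ℝ) (n : ℕ) : ℤ := ⌊rem x n⌋

/-- the denominator of the convergent `[a_0; a_1, …, a_(n-1)]` -/
def den (a : ℕ → ℤ) : ℕ → ℤ
  | 0 => 0
  | 1 => 1
  | n + 2 => a (n + 1) * den a (n + 1) + den a n

/-- the denominators, with another numbering -/
def dn (a : ℕ → ℤ) : ℕ → ℤ
  | 0 => 1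
  | 1 => 0
  | n + 2 => a n * dn a (n + 1) + dn a n

/-- the numerators -/
def nm (a : ℕ → ℤ) : ℕ → ℤ
  | 0 => 0
  | 1 => 1
  | n + 2 => a n * nm a (n + 1) + nm a n

lemma dn_succ (a : ℕ → ℤ) (n : ℕ) : dn a (n + 2) = a n * dn a (n + 1) + dn a n := rfl

lemma nm_succ (a : ℕ → ℤ) (n : ℕ) : nm a (n + 2) = a n * nm a (n + 1) + nm a n := rfl

lemma den_eq (a : ℕ → ℤ) (n : ℕ) : den a n = dn a (n + 1) := by
  induction n using Nat.twoStepInduction with
  | zero => rfl
  | one => simp [den, dn]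
  | more n h1 h2 =>
    change a (n + 1) * den a (n + 1) + den a n = a (n + 1) * dn a (n + 2) + dn a (n + 1)
    rw [h1, h2]

lemma det (a : ℕ → ℤ) (n : ℕ) : dn a n * nm a (n + 1) - dn a (n + 1) * nm a n = (-1) ^ n := by
  induction n with
  | zero => simp [dn, nm]
  | succ n ih =>
    rw [dn_succ, nm_succ, pow_succ, ← ih]
    ring

lemma shift (a : ℕ → ℤ) (r s : ℕ) :
    dn a (r + s) = dn (fun i => a (r + i)) s * dn a r + nm (fun i => a (r + i)) s * dn a (r + 1) ∧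
    nm a (r + s) = dn (fun i => a (r + i)) s * nm a r + nm (fun i => a (r + i)) s * nm a (r + 1)
    := by
  induction s using Nat.twoStepInduction with
  | zero => simp [dn, nm]
  | one => simp [dn, nm]
  | more s h1 h2 =>
    obtain ⟨h1, h1'⟩ := h1
    obtain ⟨h2, h2'⟩ := h2
    rw [show r + (s + 2) = (r + s) + 2 by ring, dn_succ, nm_succ, dn_succ, nm_succ]
    rw [show r + (s + 1) = r + s + 1 by ring] at h2 h2'
    rw [h1, h1', h2, h2']
    constructor <;> ring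

lemma dn_nonneg (a : ℕ → ℤ) (ha : ∀ n, 1 ≤ a (n + 1)) (n : ℕ) :
    0 ≤ dn a (n + 1) ∧ 1 ≤ dn a (n + 2) ∧ dn a (n + 1) ≤ dn a (n + 2) := by
  induction n with
  | zero => simp [dn]
  | succ n ih =>
    obtain ⟨h1, h2, h3⟩ := ih
    have h4 : dn a (n + 1 + 2) = a (n + 1) * dn a (n + 2) + dn a (n + 1) := dn_succ a (n + 1)
    have h5 := ha n
    refine ⟨by linarith, ?_, ?_⟩
    · rw [h4]; nlinarith
    · rw [h4]
      change dn a (n + 2) ≤ _
      nlinarith

lemma dn_mono (a : ℕ → ℤ) (ha : ∀ n, 1 ≤ a (n + 1)) {m n : ℕ} (h : m ≤ n) :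
    dn a (m + 1) ≤ dn a (n + 1) := by
  induction n, h using Nat.le_induction with
  | base => exact le_rfl
  | succ n _ ih => exact ih.trans (dn_nonneg a ha n).2.2

lemma nm_le (b : ℕ → ℤ) (hb : ∀ n, 1 ≤ b (n + 1)) (n : ℕ) :
    nm b (n + 2) ≤ (b 0 + 1) * dn b (n + 2) := by
  induction n using Nat.twoStepInduction with
  | zero => simp [dn, nm]
  | one =>
    have := hb 0
    simp only [dn, nm]
    simp only [zero_add] at this
    nlinarith
  | more n h1 h2 =>
    rw [show n + 2 + 2 = (n + 2) + 2 by ring, nm_succ, dn_succ]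
    have h3 := hb (n + 1)
    have h4 : nm b (n + 2 + 1) ≤ (b 0 + 1) * dn b (n + 2 + 1) := h2
    have h5 := mul_le_mul_of_nonneg_left h4 (by linarith : 0 ≤ b (n + 2))
    nlinarith

/-- `ρ` and `a` are the complete and the partial quotients of `ρ 0` -/
structure IsCF (ρ : ℕ → ℝ) (a : ℕ → ℤ) : Prop where
  eq : ∀ n, ρ n = a n + (ρ (n + 1))⁻¹
  one_lt : ∀ n, 1 < ρ (n + 1)
  pos : ∀ n, 1 ≤ a (n + 1)

lemma IsCF.shift {ρ : ℕ → ℝ} {a : ℕ → ℤ} (h : IsCF ρ a) (m : ℕ) :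
    IsCF (fun i => ρ (m + i)) (fun i => a (m + i)) :=
  ⟨fun n => h.eq (m + n), fun n => h.one_lt (m + n), fun n => h.pos (m + n)⟩

/-- the linear forms `q_n x - p_n` -/
noncomputable def ell (a : ℕ → ℤ) (x : ℝ) (n : ℕ) : ℝ := dn a n * x - nm a n

lemma ell_eq {ρ : ℕ → ℝ} {a : ℕ → ℤ} (h : IsCF ρ a) (n : ℕ) :
    ell a (ρ 0) n = -ρ n * ell a (ρ 0) (n + 1) := by
  induction n with
  | zero => simp [ell, dn, nm]
  | succ n ih =>
    have h1 : ell a (ρ 0) (n + 2) = a n * ell a (ρ 0) (n + 1) + ell a (ρ 0) n := by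
      unfold ell
      rw [dn_succ, nm_succ]
      push_cast
      ring
    have h2 := h.eq n
    have h3 := h.one_lt n
    have h4 : ρ (n + 1) ≠ 0 := by linarith
    rw [h1, ih]
    have h5 : (a n : ℝ) = ρ n - (ρ (n + 1))⁻¹ := by linarith
    rw [h5]
    field_simp
    ring

lemma ell_le {ρ : ℕ → ℝ} {a : ℕ → ℤ} (h : IsCF ρ a) (n : ℕ) : |ell a (ρ 0) (n + 1)| ≤ 1 := by
  induction n with
  | zero => simp [ell, dn, nm]
  | succ n ih =>
    have h1 := ell_eq h (n + 1)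
    have h3 := h.one_lt n
    rw [h1, abs_mul, abs_neg, abs_of_pos (by linarith)] at ih
    have h4 := abs_nonneg (ell a (ρ 0) (n + 1 + 1))
    nlinarith

lemma isCF {x : ℝ} (hx : Irrational x) : IsCF (rem x) (quot x) := by
  have hirr : ∀ n, Irrational (rem x n) := by
    intro n
    induction n with
    | zero => exact hx
    | succ n ih =>
      change Irrational (Int.fract (rem x n))⁻¹
      rw [irrational_inv_iff]
      unfold Int.fract
      exact ih.sub_intCast _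
  have hpos : ∀ n, 0 < Int.fract (rem x n) := by
    intro n
    refine lt_of_le_of_ne (Int.fract_nonneg _) fun h => ?_
    have h1 : rem x n = ⌊rem x n⌋ := by
      have := Int.floor_add_fract (rem x n)
      rw [← h, add_zero] at this
      exact this.symm
    exact (hirr n).ne_int _ h1
  have hlt : ∀ n, 1 < rem x (n + 1) := by
    intro n
    change 1 < (Int.fract (rem x n))⁻¹
    exact (one_lt_inv₀ (hpos n)).mpr (Int.fract_lt_one _)
  refine ⟨fun n => ?_, hlt, fun n => ?_⟩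
  · change rem x n = (⌊rem x n⌋ : ℝ) + ((Int.fract (rem x n))⁻¹)⁻¹
    rw [inv_inv]
    exact (Int.floor_add_fract _).symm
  · change 1 ≤ ⌊rem x (n + 1)⌋
    rw [Int.le_floor]
    push_cast
    exact (hlt n).le

/-- two continued fractions with `k` equal partial quotients -/
lemma close {ρ ρ' : ℕ → ℝ} {a a' : ℕ → ℤ} (h : IsCF ρ a) (h' : IsCF ρ' a') (k : ℕ)
    (he : ∀ i < k + 1, a i = a' i) :
    |ρ 0 - ρ' 0| * (dn a (k + 2) : ℝ) ^ 2 ≤ 1 := by
  have hd : ∀ n ≤ k + 2, dn a n = dn a' n ∧ nm a n = nm a' n := by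
    intro n
    induction n using Nat.twoStepInduction with
    | zero => exact fun _ => ⟨rfl, rfl⟩
    | one => exact fun _ => ⟨rfl, rfl⟩
    | more n h1 h2 =>
      intro hn
      rw [dn_succ, nm_succ, dn_succ, nm_succ, (h1 (by omega)).1, (h1 (by omega)).2,
        (h2 (by omega)).1, (h2 (by omega)).2, he n (by omega)]
      exact ⟨rfl, rfl⟩
  have e1 := ell_eq h (k + 1)
  have e2 := ell_eq h' (k + 1)
  unfold ell at e1 e2
  rw [← (hd (k + 1) (by omega)).1, ← (hd (k + 1) (by omega)).2, ← (hd (k + 1 + 1) (by omega)).1,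
    ← (hd (k + 1 + 1) (by omega)).2] at e2
  have hdet := det a (k + 1)
  have hp := dn_nonneg a h.pos k
  have hu := h.one_lt k
  have hv := h'.one_lt k
  obtain ⟨δ, hδ⟩ : ∃ δ : ℝ, δ = (dn a (k + 2) : ℝ) := ⟨_, rfl⟩
  obtain ⟨δ', hδ'⟩ : ∃ δ' : ℝ, δ' = (dn a (k + 1) : ℝ) := ⟨_, rfl⟩
  obtain ⟨ν, hν⟩ : ∃ ν : ℝ, ν = (nm a (k + 2) : ℝ) := ⟨_, rfl⟩
  obtain ⟨ν', hν'⟩ : ∃ ν' : ℝ, ν' = (nm a (k + 1) : ℝ) := ⟨_, rfl⟩
  obtain ⟨u, hu'⟩ : ∃ u : ℝ, u = ρ (k + 1) := ⟨_, rfl⟩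
  obtain ⟨v, hv'⟩ : ∃ v : ℝ, v = ρ' (k + 1) := ⟨_, rfl⟩
  have e1' : δ' * ρ 0 - ν' = -u * (δ * ρ 0 - ν) := by rw [hδ', hν', hδ, hν, hu']; exact e1
  have e2' : δ' * ρ' 0 - ν' = -v * (δ * ρ' 0 - ν) := by rw [hδ', hν', hδ, hν, hv']; exact e2
  have hδ1 : 1 ≤ δ := by rw [hδ]; exact_mod_cast hp.2.1
  have hδ0 : 0 ≤ δ' := by rw [hδ']; exact_mod_cast hp.1
  have hdetR : |ν * δ' - ν' * δ| = 1 := by
    have h1 : ν * δ' - ν' * δ = (((-1) ^ (k + 1) : ℤ) : ℝ) := by
      rw [← hdet, hν, hν', hδ, hδ']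
      push_cast
      ring
    rw [h1]
    push_cast
    rw [abs_pow, abs_neg, abs_one, one_pow]
  rw [← hu'] at hu
  rw [← hv'] at hv
  rw [← hδ]
  have key : (ρ 0 - ρ' 0) * ((δ * u + δ') * (δ * v + δ')) = (ν * δ' - ν' * δ) * (u - v) := by
    have a1 : ρ 0 * (δ * u + δ') = ν * u + ν' := by linarith
    have a2 : ρ' 0 * (δ * v + δ') = ν * v + ν' := by linarith
    calc (ρ 0 - ρ' 0) * ((δ * u + δ') * (δ * v + δ')) =
        (ρ 0 * (δ * u + δ')) * (δ * v + δ') - (ρ' 0 * (δ * v + δ')) * (δ * u + δ') := by ring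
      _ = (ν * u + ν') * (δ * v + δ') - (ν * v + ν') * (δ * u + δ') := by rw [a1, a2]
      _ = _ := by ring
  have h1 : |ρ 0 - ρ' 0| * ((δ * u + δ') * (δ * v + δ')) = |u - v| := by
    have h2 := congrArg abs key
    rw [abs_mul, abs_mul (ν * δ' - ν' * δ), hdetR, one_mul,
      abs_of_pos (a := (δ * u + δ') * (δ * v + δ')) (by positivity)] at h2
    exact h2
  have h2 : |u - v| ≤ u * v := by
    rw [abs_le]
    constructor <;> nlinarith
  have h3 : δ ^ 2 * (u * v) ≤ (δ * u + δ') * (δ * v + δ') := by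
    have : (δ * u + δ') * (δ * v + δ') = δ ^ 2 * (u * v) + δ' * (δ * u) + δ' * (δ * v) + δ' ^ 2 := by
      ring
    rw [this]
    have := mul_nonneg hδ0 (by positivity : 0 ≤ δ * u)
    have := mul_nonneg hδ0 (by positivity : 0 ≤ δ * v)
    nlinarith [sq_nonneg δ']
  have huv : 0 < u * v := by positivity
  have h4 : |ρ 0 - ρ' 0| * (δ ^ 2 * (u * v)) ≤ u * v :=
    (mul_le_mul_of_nonneg_left h3 (abs_nonneg _)).trans (h1.le.trans h2)
  have h5 : (|ρ 0 - ρ' 0| * δ ^ 2) * (u * v) ≤ 1 * (u * v) := by linarith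
  exact le_of_mul_le_mul_right h5 huv

/-- **Quadratic approximation from an eventually periodic pattern.** -/
theorem cf_poly {x : ℝ} (hx : Irrational x) (N r s : ℕ) (hs : 1 ≤ s) (hN : r + s < N)
    (hpat : ∀ i, r ≤ i → i + s < N → quot x (i + s) = quot x i) :
    ∃ Q : ℤ[X], Q ≠ 0 ∧ Q.natDegree ≤ 2 ∧
      (∀ i, |(Q.coeff i : ℝ)| ≤ 4 * (|x| + 2) ^ 2 * (den (quot x) (r + s) : ℝ) ^ 2) ∧
      |aeval x Q| * (den (quot x) N : ℝ) ^ 2 ≤
        ((|x| + 3) * (den (quot x) (r + s) : ℝ) ^ 2) ^ 2 := by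
  have h := isCF hx
  obtain ⟨a, ha⟩ : ∃ a, a = quot x := ⟨_, rfl⟩
  obtain ⟨m, hm⟩ : ∃ m, m = r + s := ⟨_, rfl⟩
  rw [← ha] at h hpat ⊢
  rw [← hm] at hN ⊢
  rw [den_eq, den_eq]
  have hx0 : rem x 0 = x := rfl
  obtain ⟨q, hq⟩ : ∃ q : ℝ, q = (dn a (m + 1) : ℝ) := ⟨_, rfl⟩
  rw [← hq]
  have hm1 : 1 ≤ m := by omega
  have hq1 : 1 ≤ q := by
    obtain ⟨n, rfl⟩ : ∃ n, m = n + 1 := ⟨m - 1, by omega⟩
    rw [hq]
    exact_mod_cast (dn_nonneg a h.pos n).2.1
  have hxa := abs_nonneg x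
  -- bounds for the entries
  have hdn : ∀ n ≤ m + 1, 0 ≤ (dn a n : ℝ) ∧ (dn a n : ℝ) ≤ q := by
    intro n hn
    rcases Nat.eq_zero_or_pos n with rfl | hn0
    · simp only [dn, Int.cast_one]
      exact ⟨by norm_num, hq1⟩
    · obtain ⟨l, rfl⟩ : ∃ l, n = l + 1 := ⟨n - 1, by omega⟩
      refine ⟨by exact_mod_cast (dn_nonneg a h.pos l).1, ?_⟩
      rw [hq]
      exact_mod_cast dn_mono a h.pos (by omega)
  have hnm : ∀ n ≤ m + 1, |(nm a n : ℝ)| ≤ (|x| + 1) * q := by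
    intro n hn
    rcases Nat.eq_zero_or_pos n with rfl | hn0
    · simp only [nm, Int.cast_zero, abs_zero]
      positivity
    · obtain ⟨l, rfl⟩ : ∃ l, n = l + 1 := ⟨n - 1, by omega⟩
      have h1 := ell_le h l
      rw [hx0] at h1
      unfold ell at h1
      have h2 := abs_sub_abs_le_abs_sub (nm a (l + 1) : ℝ) (dn a (l + 1) * x)
      rw [abs_sub_comm] at h2
      rw [abs_mul, abs_of_nonneg (hdn (l + 1) hn).1] at h2
      have h3 := (hdn (l + 1) hn).2
      have h4 : (dn a (l + 1) : ℝ) * |x| ≤ q * |x| := mul_le_mul_of_nonneg_right h3 hxa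
      nlinarith
  obtain ⟨q2, hq2⟩ : ∃ z : ℤ, z = dn a r * dn a (m + 1) - dn a (r + 1) * dn a m := ⟨_, rfl⟩
  obtain ⟨q1, hq1'⟩ : ∃ z : ℤ, z = -(dn a r * nm a (m + 1) + nm a r * dn a (m + 1)) +
    (dn a (r + 1) * nm a m + nm a (r + 1) * dn a m) := ⟨_, rfl⟩
  obtain ⟨q0, hq0⟩ : ∃ z : ℤ, z = nm a r * nm a (m + 1) - nm a (r + 1) * nm a m := ⟨_, rfl⟩
  obtain ⟨Q, hQ⟩ : ∃ Q : ℤ[X], Q = C q2 * X ^ 2 + C q1 * X + C q0 := ⟨_, rfl⟩
  have hc2 : Q.coeff 2 = q2 := by
    rw [hQ]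
    simp only [coeff_add, coeff_C_mul, coeff_X_pow, coeff_X, coeff_C]
    norm_num
  have hc1 : Q.coeff 1 = q1 := by
    rw [hQ]
    simp only [coeff_add, coeff_C_mul, coeff_X_pow, coeff_X, coeff_C]
    norm_num
  have hc0 : Q.coeff 0 = q0 := by
    rw [hQ]
    simp only [coeff_add, coeff_C_mul, coeff_X_pow, coeff_X, coeff_C]
    norm_num
  have hdeg : Q.natDegree ≤ 2 := by
    rw [hQ]; compute_degree
  have hbd2 : |(q2 : ℝ)| ≤ 4 * (|x| + 2) ^ 2 * q ^ 2 := by
    have h1 := hdn r (by omega)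
    have h2 := hdn (m + 1) le_rfl
    have h3 := hdn (r + 1) (by omega)
    have h4 := hdn m (by omega)
    rw [hq2]
    push_cast
    have h5 : (dn a r : ℝ) * dn a (m + 1) ≤ q * q := mul_le_mul h1.2 h2.2 h2.1 (by linarith)
    have h6 : (dn a (r + 1) : ℝ) * dn a m ≤ q * q := mul_le_mul h3.2 h4.2 h4.1 (by linarith)
    have h7 := mul_nonneg h1.1 h2.1
    have h8 := mul_nonneg h3.1 h4.1
    have h9 : q * q ≤ 4 * (|x| + 2) ^ 2 * q ^ 2 := by
      have : 1 ≤ 4 * (|x| + 2) ^ 2 := by nlinarith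
      nlinarith [mul_le_mul_of_nonneg_right this (sq_nonneg q)]
    rw [abs_le]
    constructor <;> linarith
  have hprod : ∀ u v : ℝ, |u| ≤ q → |v| ≤ (|x| + 1) * q → |u * v| ≤ (|x| + 1) * q ^ 2 := by
    intro u v hu hv
    rw [abs_mul]
    calc |u| * |v| ≤ q * ((|x| + 1) * q) := mul_le_mul hu hv (abs_nonneg _) (by linarith)
      _ = _ := by ring
  have hdabs : ∀ n ≤ m + 1, |(dn a n : ℝ)| ≤ q := fun n hn => by
    rw [abs_of_nonneg (hdn n hn).1]; exact (hdn n hn).2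
  have hbd1 : |(q1 : ℝ)| ≤ 4 * (|x| + 2) ^ 2 * q ^ 2 := by
    have h1 := hprod _ _ (hdabs r (by omega)) (hnm (m + 1) le_rfl)
    have h2 := hprod _ _ (hdabs (m + 1) le_rfl) (hnm r (by omega))
    have h3 := hprod _ _ (hdabs (r + 1) (by omega)) (hnm m (by omega))
    have h4 := hprod _ _ (hdabs m (by omega)) (hnm (r + 1) (by omega))
    rw [hq1']
    push_cast
    have h5 : 4 * ((|x| + 1) * q ^ 2) ≤ 4 * (|x| + 2) ^ 2 * q ^ 2 := by
      have : (|x| + 1) ≤ (|x| + 2) ^ 2 := by nlinarith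
      nlinarith [mul_le_mul_of_nonneg_right this (sq_nonneg q)]
    rw [abs_le] at h1 h2 h3 h4 ⊢
    constructor <;> linarith [h1.1, h1.2, h2.1, h2.2, h3.1, h3.2, h4.1, h4.2]
  have hbd0 : |(q0 : ℝ)| ≤ 4 * (|x| + 2) ^ 2 * q ^ 2 := by
    have hprod2 : ∀ u v : ℝ, |u| ≤ (|x| + 1) * q → |v| ≤ (|x| + 1) * q →
        |u * v| ≤ (|x| + 1) ^ 2 * q ^ 2 := by
      intro u v hu hv
      rw [abs_mul]
      calc |u| * |v| ≤ ((|x| + 1) * q) * ((|x| + 1) * q) :=
            mul_le_mul hu hv (abs_nonneg _) (by positivity)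
        _ = _ := by ring
    have h1 := hprod2 _ _ (hnm r (by omega)) (hnm (m + 1) le_rfl)
    have h2 := hprod2 _ _ (hnm (r + 1) (by omega)) (hnm m (by omega))
    rw [hq0]
    push_cast
    have h5 : 2 * ((|x| + 1) ^ 2 * q ^ 2) ≤ 4 * (|x| + 2) ^ 2 * q ^ 2 := by
      have : 2 * (|x| + 1) ^ 2 ≤ 4 * (|x| + 2) ^ 2 := by nlinarith
      nlinarith [mul_le_mul_of_nonneg_right this (sq_nonneg q)]
    rw [abs_le] at h1 h2 ⊢
    constructor <;> linarith [h1.1, h1.2, h2.1, h2.2]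
  refine ⟨Q, ?_, hdeg, ?_, ?_⟩
  · -- `Q ≠ 0`
    intro hQ0
    have e2 : q2 = 0 := by rw [← hc2, hQ0, coeff_zero]
    have e1 : q1 = 0 := by rw [← hc1, hQ0, coeff_zero]
    have e0 : q0 = 0 := by rw [← hc0, hQ0, coeff_zero]
    obtain ⟨s1, s2⟩ := shift a r (s + 1)
    rw [show r + (s + 1) = m + 1 by omega] at s1 s2
    have hdet := det a r
    obtain ⟨δ, hδ⟩ : ∃ δ, δ = nm a (r + 1) := ⟨_, rfl⟩
    obtain ⟨γ, hγ⟩ : ∃ γ, γ = dn a (r + 1) := ⟨_, rfl⟩
    have hE : q2 * δ ^ 2 + q1 * δ * γ + q0 * γ ^ 2 =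
        (dn a r * δ - γ * nm a r) * (dn a (m + 1) * δ - nm a (m + 1) * γ) := by
      rw [hq2, hq1', hq0, hδ, hγ]
      ring
    have hE2 : dn a (m + 1) * δ - nm a (m + 1) * γ =
        dn (fun i => a (r + i)) (s + 1) * (dn a r * δ - γ * nm a r) := by
      rw [s1, s2, hδ, hγ]
      ring
    rw [← hδ, ← hγ] at hdet
    rw [hE2, hdet, e2, e1, e0] at hE
    have hsq : ((-1 : ℤ) ^ r) * ((-1) ^ r) = 1 := by
      rw [← mul_pow]; norm_num
    have hD : dn (fun i => a (r + i)) (s + 1) = 0 := by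
      have : (-1 : ℤ) ^ r * (dn (fun i => a (r + i)) (s + 1) * (-1) ^ r) =
          dn (fun i => a (r + i)) (s + 1) * ((-1) ^ r * (-1) ^ r) := by ring
      rw [this, hsq] at hE
      linarith
    obtain ⟨l, rfl⟩ : ∃ l, s = l + 1 := ⟨s - 1, by omega⟩
    have := (dn_nonneg (fun i => a (r + i)) (fun n => h.pos (r + n)) l).2.1
    rw [show l + 1 + 1 = l + 2 by ring] at hD
    omega
  · intro i
    match i with
    | 0 => rw [hc0]; exact hbd0
    | 1 => rw [hc1]; exact hbd1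
    | 2 => rw [hc2]; exact hbd2
    | i + 3 =>
      rw [coeff_eq_zero_of_natDegree_lt (by omega)]
      simp only [Int.cast_zero, abs_zero]
      positivity
  · -- the value
    obtain ⟨k, hk⟩ : ∃ k, N = m + (k + 1) := ⟨N - m - 1, by omega⟩
    have hval : aeval x Q = ell a x (r + 1) * ell a x (m + 1) * (rem x m - rem x r) := by
      have h1 := ell_eq h r
      have h2 := ell_eq h m
      rw [hx0] at h1 h2
      have h3 : aeval x Q = ell a x r * ell a x (m + 1) - ell a x (r + 1) * ell a x m := by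
        rw [hQ, map_add, map_add, map_mul, map_mul, map_pow, aeval_X, aeval_C, aeval_C, aeval_C]
        simp only [algebraMap_int_eq, eq_intCast]
        rw [hq2, hq1', hq0]
        unfold ell
        push_cast
        ring
      rw [h3, h1, h2]
      ring
    have hclose := close (h.shift m) (h.shift r) k (fun i hi => by
      have := hpat (r + i) (by omega) (by omega)
      change a (m + i) = a (r + i)
      rw [← this]
      congr 1
      omega)
    simp only [add_zero] at hclose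
    obtain ⟨b, hb⟩ : ∃ b : ℕ → ℤ, b = fun i => a (m + i) := ⟨_, rfl⟩
    rw [← hb] at hclose
    obtain ⟨D, hD⟩ : ∃ D : ℝ, D = (dn b (k + 2) : ℝ) := ⟨_, rfl⟩
    rw [← hD] at hclose
    have hD1 : 1 ≤ D := by
      rw [hD, hb]
      exact_mod_cast (dn_nonneg (fun i => a (m + i)) (fun n => h.pos (m + n)) k).2.1
    have hb0 : (b 0 : ℝ) + 2 ≤ (|x| + 3) * q := by
      have hbr : b 0 = a r := by
        rw [hb]
        change a (m + 0) = a r
        rw [add_zero, hm]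
        exact hpat r le_rfl (by omega)
      rw [hbr]
      rcases Nat.eq_zero_or_pos r with hr0 | hr0
      · rw [hr0]
        have h1 : (a 0 : ℝ) ≤ x := by
          rw [ha]
          exact Int.floor_le _
        have h2 := le_abs_self x
        nlinarith
      · obtain ⟨l, hl⟩ : ∃ l, r = l + 1 := ⟨r - 1, by omega⟩
        have h1 : a r ≤ dn a (r + 2) := by
          rw [dn_succ, hl]
          have h2 := dn_nonneg a h.pos l
          have h3 := h.pos l
          have h4 : 1 ≤ dn a (l + 1 + 1) := h2.2.1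
          nlinarith
        have h2 : dn a (r + 2) ≤ dn a (m + 1) := dn_mono a h.pos (by omega)
        have h3 : (a r : ℝ) ≤ q := by
          rw [hq]
          exact_mod_cast h1.trans h2
        nlinarith
    have hNq : (dn a (N + 1) : ℝ) ≤ (|x| + 3) * q ^ 2 * D := by
      obtain ⟨s1, -⟩ := shift a m (k + 2)
      rw [show m + (k + 2) = N + 1 by omega] at s1
      have h1 := nm_le (fun i => a (m + i)) (fun n => h.pos (m + n)) k
      have h2 : dn a m ≤ dn a (m + 1) := by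
        obtain ⟨l, rfl⟩ : ∃ l, m = l + 1 := ⟨m - 1, by omega⟩
        exact (dn_nonneg a h.pos l).2.2
      have h3 : (0 : ℤ) ≤ dn (fun i => a (m + i)) (k + 2) := by
        have := (dn_nonneg (fun i => a (m + i)) (fun n => h.pos (m + n)) k).2.1
        omega
      have h4 : (0 : ℤ) ≤ dn a (m + 1) := (dn_nonneg a h.pos m).1
      have h5 : dn a (N + 1) ≤ (b 0 + 2) * dn b (k + 2) * dn a (m + 1) := by
        rw [s1, hb]
        have h6 := mul_le_mul_of_nonneg_left h2 h3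
        have h7 := mul_le_mul_of_nonneg_right h1 h4
        simp only at h7 ⊢
        linarith
      have h6 : (dn a (N + 1) : ℝ) ≤ (b 0 + 2) * D * q := by
        rw [hD, hq]
        exact_mod_cast h5
      calc (dn a (N + 1) : ℝ) ≤ (b 0 + 2) * D * q := h6
        _ ≤ ((|x| + 3) * q) * D * q := by
          refine mul_le_mul_of_nonneg_right (mul_le_mul_of_nonneg_right hb0 (by linarith))
            (by linarith)
        _ = _ := by ring
    have hN0 : (0 : ℝ) ≤ dn a (N + 1) := by exact_mod_cast (dn_nonneg a h.pos N).1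
    have hQabs : |aeval x Q| ≤ |rem x m - rem x r| := by
      rw [hval, abs_mul, abs_mul]
      have h1 := ell_le h r
      have h2 := ell_le h m
      rw [hx0] at h1 h2
      have h3 : |ell a x (r + 1)| * |ell a x (m + 1)| ≤ 1 :=
        mul_le_one₀ h1 (abs_nonneg _) h2
      exact mul_le_of_le_one_left (abs_nonneg _) h3
    calc |aeval x Q| * (dn a (N + 1) : ℝ) ^ 2 ≤
          |rem x m - rem x r| * ((|x| + 3) * q ^ 2 * D) ^ 2 :=
          mul_le_mul hQabs (pow_le_pow_left₀ hN0 hNq 2) (by positivity) (abs_nonneg _)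
      _ = (|rem x m - rem x r| * D ^ 2) * ((|x| + 3) * q ^ 2) ^ 2 := by ring
      _ ≤ 1 * ((|x| + 3) * q ^ 2) ^ 2 := mul_le_mul_of_nonneg_right hclose (by positivity)
      _ = _ := one_mul _

end Pool.Agent.Y39.DI
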