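import Pool.Agent.Y39.DH.Alg

/-!
# Families in which every two numbers determine `θ`

Copied from `Pool/Agent/Results/MP_e48a95_nt/OneExceptionPerScale.lean`.
-/

set_option autoImplicit false

namespace Pool.Agent.Y39.DI

open Finset Polynomial
open Pool.Agent.Y39.DG Pool.Agent.Y39.DH

/-- a relation with three terms -/
lemma alg3 {T : Set ℝ} (θ u v w : ℝ) (hu : u ∈ Algebra.adjoin ℤ T) (hv : v ∈ Algebra.adjoin ℤ T)
    (hw : w ∈ Algebra.adjoin ℤ T) (k l : ℕ) (hk : 1 ≤ k) (hl : 1 ≤ l) (hu0 : u ≠ 0)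
    (h : u + v * θ ^ k + w * θ ^ l = 0) : IsAlgebraic (Algebra.adjoin ℤ T) θ := by
  refine ⟨C ⟨u, hu⟩ + C ⟨v, hv⟩ * X ^ k + C ⟨w, hw⟩ * X ^ l, ?_, ?_⟩
  · intro h0
    have h1 := congrArg (fun p => p.coeff 0) h0
    simp only [coeff_add, coeff_C_zero, coeff_C_mul, coeff_X_pow, coeff_zero] at h1
    rw [if_neg (by omega), if_neg (by omega), mul_zero, mul_zero, add_zero, add_zero] at h1
    exact hu0 (congrArg Subtype.val h1)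
  · simp only [map_add, map_mul, map_pow, aeval_C, aeval_X]
    exact h

/-- the numbers `t + r θ ^ k` (`1 ≤ k ≤ H`, `r` rational of height at most `H`) and `t θ ^ l`
(`|l| ≤ H`) -/
def Family (θ t : ℝ) (H : ℕ) : Set ℝ :=
  {x | (∃ (r : ℚ) (k : ℕ), |r.num| ≤ H ∧ r.den ≤ H ∧ 1 ≤ k ∧ k ≤ H ∧ x = t + r * θ ^ k) ∨
    ∃ l : ℤ, |l| ≤ H ∧ x = t * θ ^ l}

lemma family_finite (θ t : ℝ) (H : ℕ) : (Family θ t H).Finite := by
  have h1 : {r : ℚ | |r.num| ≤ H ∧ r.den ≤ H}.Finite := by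
    refine ((Finset.Icc (-(H : ℤ)) H ×ˢ Finset.range (H + 1)).image
      (fun x : ℤ × ℕ => (x.1 : ℚ) / x.2)).finite_toSet.subset ?_
    rintro r ⟨h1, h2⟩
    rw [Finset.mem_coe, mem_image]
    refine ⟨(r.num, r.den), ?_, Rat.num_div_den r⟩
    rw [mem_product, Finset.mem_Icc, mem_range]
    exact ⟨abs_le.mp h1, by omega⟩
  refine (((h1.prod (Set.finite_Icc 0 H)).image fun z : ℚ × ℕ => t + z.1 * θ ^ z.2).union
    ((Set.finite_Icc (-(H : ℤ)) H).image fun l : ℤ => t * θ ^ l)).subset ?_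
  rintro x (⟨r, k, h2, h3, h4, h5, rfl⟩ | ⟨l, h2, rfl⟩)
  · exact Or.inl ⟨(r, k), ⟨⟨h2, h3⟩, ⟨Nat.zero_le _, h5⟩⟩, rfl⟩
  · exact Or.inr ⟨l, abs_le.mp h2, rfl⟩

lemma mem_l {x y : ℝ} : x ∈ Algebra.adjoin ℤ (({x, y} : Set ℝ)) :=
  Algebra.subset_adjoin (by simp)

lemma mem_r {x y : ℝ} : y ∈ Algebra.adjoin ℤ (({x, y} : Set ℝ)) :=
  Algebra.subset_adjoin (by simp)

lemma mem_int {T : Set ℝ} (n : ℤ) : (n : ℝ) ∈ Algebra.adjoin ℤ T := by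
  have h := (Algebra.adjoin ℤ T).algebraMap_mem n
  rwa [algebraMap_int_eq, eq_intCast] at h

/-- `t + r θ ^ k` and `t + s θ ^ l` -/
lemma pair_add (θ t : ℝ) (r s : ℚ) (k l : ℕ) (hk : 1 ≤ k) (hl : 1 ≤ l)
    (hne : t + r * θ ^ k ≠ t + s * θ ^ l) :
    IsAlgebraic (Algebra.adjoin ℤ ({t + r * θ ^ k, t + s * θ ^ l} : Set ℝ)) θ := by
  have hr : (r : ℝ) * r.den = r.num := by exact_mod_cast Rat.mul_den_eq_num r
  have hs : (s : ℝ) * s.den = s.num := by exact_mod_cast Rat.mul_den_eq_num s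
  have hr0 : (r.den : ℝ) ≠ 0 := by exact_mod_cast r.den_nz
  have hs0 : (s.den : ℝ) ≠ 0 := by exact_mod_cast s.den_nz
  obtain ⟨x, hx⟩ : ∃ x, x = t + r * θ ^ k := ⟨_, rfl⟩
  obtain ⟨y, hy⟩ : ∃ y, y = t + s * θ ^ l := ⟨_, rfl⟩
  rw [← hx, ← hy] at hne ⊢
  refine alg3 θ (((r.den * s.den : ℤ) : ℝ) * (x - y)) (((-(r.num * s.den) : ℤ)) : ℝ)
    ((s.num * r.den : ℤ) : ℝ) ?_ (mem_int _) (mem_int _) k l hk hl ?_ ?_
  · exact Subalgebra.mul_mem _ (mem_int _) (Subalgebra.sub_mem _ mem_l mem_r)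
  · push_cast
    exact mul_ne_zero (mul_ne_zero hr0 hs0) (sub_ne_zero.mpr hne)
  · push_cast
    rw [← hr, ← hs, hx, hy]
    ring

/-- `t + r θ ^ k` and `t θ ^ l` -/
lemma pair_mixed (θ t : ℝ) (hθ : θ ≠ 0) (r : ℚ) (k : ℕ) (hk : 1 ≤ k) (l : ℤ)
    (hx0 : t + r * θ ^ k ≠ 0) (hy0 : t * θ ^ l ≠ 0) (hne : t + r * θ ^ k ≠ t * θ ^ l) :
    IsAlgebraic (Algebra.adjoin ℤ ({t + r * θ ^ k, t * θ ^ l} : Set ℝ)) θ := by
  have hr : (r : ℝ) * r.den = r.num := by exact_mod_cast Rat.mul_den_eq_num r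
  have hr0 : (r.den : ℝ) ≠ 0 := by exact_mod_cast r.den_nz
  rcases lt_trichotomy l 0 with h | h | h
  · obtain ⟨n, hn⟩ : ∃ n : ℕ, l = -(n : ℤ) := ⟨(-l).toNat, by omega⟩
    subst hn
    have hn1 : 1 ≤ n := by omega
    rw [zpow_neg, zpow_natCast] at hy0 hne ⊢
    obtain ⟨x, hx⟩ : ∃ x, x = t + r * θ ^ k := ⟨_, rfl⟩
    obtain ⟨y, hy⟩ : ∃ y, y = t * (θ ^ n)⁻¹ := ⟨_, rfl⟩
    have hyt : y * θ ^ n = t := by
      rw [hy, mul_assoc, inv_mul_cancel₀ (pow_ne_zero n hθ), mul_one]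
    rw [← hx] at hx0
    rw [← hx, ← hy]
    refine alg3 θ (((-(r.den : ℤ) : ℤ) : ℝ) * x) (((r.den : ℤ) : ℝ) * y) ((r.num : ℤ) : ℝ)
      (Subalgebra.mul_mem _ (mem_int _) mem_l) (Subalgebra.mul_mem _ (mem_int _) mem_r)
      (mem_int _) n k hn1 hk ?_ ?_
    · push_cast
      exact mul_ne_zero (neg_ne_zero.mpr hr0) hx0
    · push_cast
      rw [← hr, mul_assoc, hyt, hx]
      ring
  · subst h
    have e : t * θ ^ (0 : ℤ) = t + ((0 : ℚ) : ℝ) * θ ^ 1 := by simp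
    rw [e] at hne ⊢
    exact pair_add θ t r 0 k 1 hk le_rfl hne
  · obtain ⟨n, hn⟩ : ∃ n : ℕ, l = (n : ℤ) := ⟨l.toNat, by omega⟩
    subst hn
    have hn1 : 1 ≤ n := by omega
    rw [zpow_natCast] at hy0 hne ⊢
    obtain ⟨x, hx⟩ : ∃ x, x = t + r * θ ^ k := ⟨_, rfl⟩
    obtain ⟨y, hy⟩ : ∃ y, y = t * θ ^ n := ⟨_, rfl⟩
    rw [← hy] at hy0
    rw [← hx, ← hy]
    refine alg3 θ (((-(r.den : ℤ) : ℤ) : ℝ) * y) (((r.den : ℤ) : ℝ) * x) (((-r.num : ℤ)) : ℝ)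
      (Subalgebra.mul_mem _ (mem_int _) mem_r) (Subalgebra.mul_mem _ (mem_int _) mem_l)
      (mem_int _) n (k + n) hn1 (by omega) ?_ ?_
    · push_cast
      exact mul_ne_zero (neg_ne_zero.mpr hr0) hy0
    · push_cast
      rw [← hr, hy, hx]
      ring

/-- `t θ ^ j` and `t θ ^ l` -/
lemma pair_mul (θ t : ℝ) (hθ : θ ≠ 0) (j l : ℤ) (hjl : j < l) (hy0 : t * θ ^ l ≠ 0) :
    IsAlgebraic (Algebra.adjoin ℤ ({t * θ ^ j, t * θ ^ l} : Set ℝ)) θ := by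
  obtain ⟨n, hn⟩ : ∃ n : ℕ, l = j + (n : ℤ) := ⟨(l - j).toNat, by omega⟩
  subst hn
  have hn1 : 1 ≤ n := by omega
  have e : t * θ ^ (j + (n : ℤ)) = t * θ ^ j * θ ^ n := by
    rw [zpow_add₀ hθ, zpow_natCast, mul_assoc]
  obtain ⟨x, hx⟩ : ∃ x, x = t * θ ^ j := ⟨_, rfl⟩
  obtain ⟨y, hy⟩ : ∃ y, y = t * θ ^ (j + (n : ℤ)) := ⟨_, rfl⟩
  rw [← hy] at hy0
  rw [← hx, ← hy]
  have hxy : y = x * θ ^ n := by rw [hy, hx, e]
  refine alg3 θ (((-1 : ℤ) : ℝ) * y) x ((0 : ℤ) : ℝ)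
    (Subalgebra.mul_mem _ (mem_int _) mem_r) mem_l (mem_int _) n 1 hn1 le_rfl ?_ ?_
  · push_cast
    exact mul_ne_zero (by norm_num) hy0
  · push_cast
    rw [hxy]
    ring

lemma hasMeasure_ne_zero {θ : ℝ} (hθ : HasMeasure θ) : θ ≠ 0 := by
  rintro rfl
  obtain ⟨κ, c, hκ, hc, h⟩ := hθ 1
  have h1 := h X X_ne_zero natDegree_X_le 1 le_rfl (fun j => by
    rw [coeff_X]
    split_ifs <;> simp)
  rw [aeval_X, abs_zero, mul_zero] at h1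
  linarith

lemma family_pair (θ t : ℝ) (hθ : θ ≠ 0) (H : ℕ) (x y : ℝ) (hx : x ∈ Family θ t H)
    (hy : y ∈ Family θ t H) (hx0 : x ≠ 0) (hy0 : y ≠ 0) (hxy : x ≠ y) :
    IsAlgebraic (Algebra.adjoin ℤ ({x, y} : Set ℝ)) θ := by
  rcases hx with ⟨r, k, _, _, hk, _, rfl⟩ | ⟨j, _, rfl⟩
  · rcases hy with ⟨s, l, _, _, hl, _, rfl⟩ | ⟨l, _, rfl⟩
    · exact pair_add θ t r s k l hk hl hxy
    · exact pair_mixed θ t hθ r k hk l hx0 hy0 hxy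
  · rcases hy with ⟨s, l, _, _, hl, _, rfl⟩ | ⟨l, _, rfl⟩
    · rw [Set.pair_comm]
      exact pair_mixed θ t hθ s l hl j hy0 hx0 hxy.symm
    · rcases lt_trichotomy j l with h | h | h
      · exact pair_mul θ t hθ j l h hy0
      · exact absurd (by rw [h]) hxy
      · rw [Set.pair_comm]
        exact pair_mul θ t hθ l j h hx0

end Pool.Agent.Y39.DI
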