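import Pool.Agent.Y39.DI.Rich
import Pool.Agent.Y39.DI.Fam

/-!
# At most `r` exceptions at every precision
-/

set_option autoImplicit false

namespace Pool.Agent.Y39.DI

open Finset Polynomial
open Pool.Agent.Y39.DG Pool.Agent.Y39.DH

/-- From tuples to finite sets: `P c C X x` is a property which becomes weaker for smaller `c` and
larger `C`, and for every `(r + 1)`-element subset of `S` and every `X` some element has it. -/
theorem few_of (P : ℝ → ℝ → ℝ → ℝ → Prop)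
    (hmono : ∀ c C c' C' X x : ℝ, c' ≤ c → C ≤ C' → 1 ≤ X → P c C X x → P c' C' X x)
    (S : Finset ℝ) (r : ℕ)
    (h : ∀ T ⊆ S, T.card = r + 1 → ∃ c C : ℝ, 0 < c ∧ 0 ≤ C ∧ ∀ X : ℝ, 1 ≤ X → ∃ x ∈ T, P c C X x) :
    ∃ c C : ℝ, 0 < c ∧ 0 ≤ C ∧ ∀ X : ℝ, 1 ≤ X → {x ∈ (S : Set ℝ) | ¬ P c C X x}.ncard ≤ r := by
  classical
  have h' : ∀ T : Finset ℝ, T ∈ S.powersetCard (r + 1) → ∃ c C : ℝ, 0 < c ∧ 0 ≤ C ∧
      ∀ X : ℝ, 1 ≤ X → ∃ x ∈ T, P c C X x := by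
    intro T hT
    rw [mem_powersetCard] at hT
    exact h T hT.1 hT.2
  choose! c C hc hC hP using h'
  obtain ⟨A, hA⟩ : ∃ A : ℝ, A = 1 + ∑ T ∈ S.powersetCard (r + 1), (c T)⁻¹ := ⟨_, rfl⟩
  obtain ⟨B, hB⟩ : ∃ B : ℝ, B = ∑ T ∈ S.powersetCard (r + 1), C T := ⟨_, rfl⟩
  have hA1 : 1 ≤ A := by
    rw [hA]
    have : 0 ≤ ∑ T ∈ S.powersetCard (r + 1), (c T)⁻¹ :=
      Finset.sum_nonneg fun T hT => (inv_pos.mpr (hc T hT)).le
    linarith
  have hB0 : 0 ≤ B := by rw [hB]; exact Finset.sum_nonneg fun T hT => hC T hT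
  refine ⟨A⁻¹, B, inv_pos.mpr (by linarith), hB0, fun X hX => ?_⟩
  have e : {x ∈ (S : Set ℝ) | ¬ P A⁻¹ B X x} = ((S.filter fun x => ¬ P A⁻¹ B X x : Finset ℝ) : Set ℝ)
      := by
    ext x
    simp
  rw [e, Set.ncard_coe_finset]
  by_contra hcon
  push Not at hcon
  obtain ⟨T, hTS, hTr⟩ := Finset.exists_subset_card_eq (Nat.succ_le_of_lt hcon)
  have hTm : T ∈ S.powersetCard (r + 1) := by
    rw [mem_powersetCard]
    exact ⟨hTS.trans (Finset.filter_subset _ _), hTr⟩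
  obtain ⟨x, hx, hPx⟩ := hP T hTm X hX
  refine (Finset.mem_filter.mp (hTS hx)).2 (hmono _ _ _ _ X x ?_ ?_ hX hPx)
  · rw [inv_le_comm₀ (by linarith) (hc T hTm), hA]
    have := Finset.single_le_sum (f := fun T => (c T)⁻¹)
      (fun T hT => (inv_pos.mpr (hc T hT)).le) hTm
    linarith
  · rw [hB]
    exact Finset.single_le_sum (f := C) (fun T hT => hC T hT) hTm

lemma finset_enum (T : Finset ℝ) : ∃ x : Fin T.card → ℝ, (∀ j, x j ∈ T) ∧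
    Set.range x = (T : Set ℝ) := by
  refine ⟨fun j => ((T.equivFin.symm j : T) : ℝ), fun j => (T.equivFin.symm j).2, ?_⟩
  ext y
  constructor
  · rintro ⟨j, rfl⟩
    exact (T.equivFin.symm j).2
  · intro hy
    exact ⟨T.equivFin ⟨y, hy⟩, by simp⟩

lemma Rich.mono {d : ℕ} {c C c' C' X x : ℝ} (hc : c' ≤ c) (hC : C ≤ C') (hX : 1 ≤ X)
    (h : Rich d c C X x) : Rich d c' C' X x := by
  have hl : 0 ≤ Real.log X := Real.log_nonneg hX
  have h1 : c' * Real.log X - C' ≤ c * Real.log X - C := by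
    have := mul_le_mul_of_nonneg_right hc hl
    linarith
  obtain ⟨h2, h3, h4⟩ := h
  exact ⟨h2, fun ξ H a b => h1.trans (h3 ξ H a b), fun N r s a b e => h1.trans (h4 N r s a b e)⟩

/-- at most `r` elements of `S` are simple at the precision `X` -/
theorem few_not_rich (S : Finset ℝ) (r : ℕ)
    (h : ∀ T ⊆ S, T.card = r + 1 →
      ∃ θ : ℝ, HasMeasure θ ∧ IsAlgebraic (Algebra.adjoin ℤ (T : Set ℝ)) θ) (d : ℕ) :
    ∃ c C : ℝ, 0 < c ∧ 0 ≤ C ∧ ∀ X : ℝ, 1 ≤ X → {x ∈ (S : Set ℝ) | ¬ Rich d c C X x}.ncard ≤ r := by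
  refine few_of (Rich d) (fun c C c' C' X x h1 h2 h3 h4 => h4.mono h1 h2 h3) S r
    fun T hT hTr => ?_
  obtain ⟨θ, hθ, hal⟩ := h T hT hTr
  obtain ⟨x, hx, hr⟩ := finset_enum T
  rw [← hr] at hal
  obtain ⟨c, C, hc, hC, hR⟩ := rich_of_algebraic x θ hθ hal d
  refine ⟨c, C, hc, hC, fun X hX => ?_⟩
  obtain ⟨j, hj⟩ := hR X hX
  exact ⟨x j, hx j, hj⟩

end Pool.Agent.Y39.DI
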