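import Mathlib

/-!
# The norm of a polynomial over the integers of a number field

The lemmas on `normPoly` are those of `Pool/Agent/W242/IM/NF.lean`; there are also bounds for the
degree, the coefficients and the values.
-/

set_option autoImplicit false

namespace Pool.Agent.Y39.DI

open Polynomial NumberField Finset

noncomputable section

/-- the restriction of an embedding to the ring of integers -/
def emb {K : Type} [Field K] (σ : K →+* ℂ) : 𝓞 K →+* ℂ := σ.comp (algebraMap (𝓞 K) K)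

/-- the product of the conjugates of a polynomial -/
def normPoly (K : Type) [Field K] [NumberField K] (p : (𝓞 K)[X]) : ℂ[X] :=
  ∏ σ : K →+* ℂ, p.map (emb σ)

variable (K : Type) [Field K] [NumberField K]

theorem normPoly_integral (p : (𝓞 K)[X]) (i : ℕ) : IsIntegral ℤ ((normPoly K p).coeff i) := by
  set S := integralClosure ℤ ℂ with hS
  have h1 : ∀ σ : K →+* ℂ, ∃ g : 𝓞 K →+* S, (S.subtype : S →+* ℂ).comp g = emb σ := by
    intro σ
    have h2 : ∀ x : 𝓞 K, emb σ x ∈ S := by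
      intro x
      rw [hS, mem_integralClosure_iff]
      exact (RingOfIntegers.isIntegral_coe x).map σ.toIntAlgHom
    exact ⟨(emb σ).codRestrict S.toSubring h2, RingHom.ext fun x => rfl⟩
  choose g hg using h1
  have h2 : normPoly K p = (∏ σ : K →+* ℂ, p.map (g σ)).map (S.subtype : S →+* ℂ) := by
    unfold normPoly
    rw [Polynomial.map_prod]
    refine Finset.prod_congr rfl fun σ _ => ?_
    rw [Polynomial.map_map, hg]
  rw [h2, coeff_map]
  exact ((∏ σ : K →+* ℂ, p.map (g σ)).coeff i).2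

theorem normPoly_eval (p : (𝓞 K)[X]) (m : ℕ) :
    (normPoly K p).eval (m : ℂ) =
      ((Algebra.norm ℚ ((algebraMap (𝓞 K) K) (p.eval (m : 𝓞 K))) : ℚ) : ℂ) := by
  have h1 := Algebra.norm_eq_prod_embeddings ℚ ℂ ((algebraMap (𝓞 K) K) (p.eval (m : 𝓞 K)))
  have h2 : (algebraMap ℚ ℂ) (Algebra.norm ℚ ((algebraMap (𝓞 K) K) (p.eval (m : 𝓞 K)))) =
    ((Algebra.norm ℚ ((algebraMap (𝓞 K) K) (p.eval (m : 𝓞 K))) : ℚ) : ℂ) := rfl
  rw [← h2, h1]
  unfold normPoly
  rw [eval_prod]
  refine Fintype.prod_equiv (RingHom.equivRatAlgHom K ℂ) _ _ fun σ => ?_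
  rw [eval_map]
  have h3 : (emb σ) (p.eval (m : 𝓞 K)) = eval₂ (emb σ) ((m : ℕ) : ℂ) p := by
    have := Polynomial.hom_eval₂ p (RingHom.id (𝓞 K)) (emb σ) (m : 𝓞 K)
    rw [RingHom.comp_id, map_natCast] at this
    exact this
  rw [← h3]
  rfl

theorem normPoly_rat (p : (𝓞 K)[X]) : ∃ Q : ℚ[X], Q.map (algebraMap ℚ ℂ) = normPoly K p := by
  set N := (normPoly K p).natDegree with hN
  set r : ℕ → ℚ := fun m => Algebra.norm ℚ ((algebraMap (𝓞 K) K) (p.eval (m : 𝓞 K))) with hr
  set Q : ℚ[X] := Lagrange.interpolate (Finset.range (N + 1)) (fun i : ℕ => (i : ℚ)) r with hQ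
  have hinj : Set.InjOn (fun i : ℕ => (i : ℚ)) (Finset.range (N + 1)) := fun a _ b _ hab =>
    Nat.cast_injective (R := ℚ) hab
  refine ⟨Q, ?_⟩
  refine eq_of_degrees_lt_of_eval_index_eq (s := Finset.range (N + 1)) (v := fun i : ℕ => (i : ℂ))
    (fun a _ b _ hab => Nat.cast_injective (R := ℂ) hab) ?_ ?_ ?_
  · refine lt_of_le_of_lt (degree_map_le) ?_
    exact Lagrange.degree_interpolate_lt _ hinj
  · refine lt_of_le_of_lt degree_le_natDegree ?_
    rw [Finset.card_range, ← hN]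
    exact_mod_cast Nat.lt_succ_self N
  · intro i hi
    rw [normPoly_eval]
    have h1 := Lagrange.eval_interpolate_at_node r hinj hi
    have h2 : (Q.map (algebraMap ℚ ℂ)).eval ((i : ℕ) : ℂ) = algebraMap ℚ ℂ (Q.eval (i : ℚ)) := by
      have h3 := Polynomial.hom_eval₂ Q (RingHom.id ℚ) (algebraMap ℚ ℂ) (i : ℚ)
      rw [RingHom.comp_id, map_natCast] at h3
      rw [eval_map]
      exact h3.symm
    rw [h2, hQ, h1]
    rfl

theorem normPoly_int (p : (𝓞 K)[X]) :
    ∃ P : ℤ[X], P.map (Int.castRingHom ℂ) = normPoly K p := by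
  obtain ⟨Q, hQ⟩ := normPoly_rat K p
  have h1 : normPoly K p ∈ Polynomial.lifts (Int.castRingHom ℂ) := by
    rw [lifts_iff_coeff_lifts]
    intro n
    have h2 := normPoly_integral K p n
    rw [← hQ, coeff_map] at h2 ⊢
    rw [isIntegral_algebraMap_iff (algebraMap ℚ ℂ).injective] at h2
    obtain ⟨y, hy⟩ := IsIntegrallyClosed.isIntegral_iff.mp h2
    refine ⟨y, ?_⟩
    rw [← hy]
    simp
  obtain ⟨P, hP⟩ := (Polynomial.mem_lifts _).mp h1
  exact ⟨P, hP⟩

/-- the coefficients of `p` are bounded by those of `q` -/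
def Maj (p : ℂ[X]) (q : ℝ[X]) : Prop := ∀ i, ‖p.coeff i‖ ≤ q.coeff i

lemma Maj.mul {p p' : ℂ[X]} {q q' : ℝ[X]} (h : Maj p q) (h' : Maj p' q') :
    Maj (p * p') (q * q') := by
  intro i
  rw [coeff_mul, coeff_mul]
  refine (norm_sum_le _ _).trans (Finset.sum_le_sum fun a _ => ?_)
  rw [norm_mul]
  exact mul_le_mul (h _) (h' _) (norm_nonneg _) ((norm_nonneg _).trans (h _))

lemma Maj.prod {ι : Type*} (s : Finset ι) (p : ι → ℂ[X]) (q : ι → ℝ[X])
    (h : ∀ i ∈ s, Maj (p i) (q i)) : Maj (∏ i ∈ s, p i) (∏ i ∈ s, q i) := by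
  classical
  induction s using Finset.induction_on with
  | empty =>
    intro i
    simp only [Finset.prod_empty, coeff_one]
    split_ifs <;> simp
  | insert a s ha ih =>
    rw [Finset.prod_insert ha, Finset.prod_insert ha]
    exact (h a (Finset.mem_insert_self _ _)).mul
      (ih fun i hi => h i (Finset.mem_insert_of_mem hi))

lemma Maj.le_eval {p : ℂ[X]} {q : ℝ[X]} (h : Maj p q) (i : ℕ) : ‖p.coeff i‖ ≤ q.eval 1 := by
  have hq : ∀ j, 0 ≤ q.coeff j := fun j => (norm_nonneg _).trans (h j)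
  refine (h i).trans ?_
  rw [eval_eq_sum_range]
  by_cases hi : i ≤ q.natDegree
  · have := Finset.single_le_sum (f := fun j => q.coeff j * (1 : ℝ) ^ j)
      (fun j _ => by rw [one_pow, mul_one]; exact hq j)
      (mem_range.mpr (Nat.lt_succ_of_le hi))
    simpa using this
  · rw [coeff_eq_zero_of_natDegree_lt (by omega)]
    exact Finset.sum_nonneg fun j _ => by rw [one_pow, mul_one]; exact hq j

/-- the majorant of the polynomials of degree at most `N` with coefficients bounded by `B` -/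
def box (N : ℕ) (B : ℝ) : ℝ[X] := ∑ i ∈ range (N + 1), C B * X ^ i

lemma box_coeff (N : ℕ) (B : ℝ) (i : ℕ) : (box N B).coeff i = if i ∈ range (N + 1) then B else 0 := by
  unfold box
  rw [finsetSum_coeff]
  simp only [coeff_C_mul_X_pow]
  rw [Finset.sum_ite_eq]

lemma box_eval (N : ℕ) (B : ℝ) : (box N B).eval 1 = (N + 1) * B := by
  unfold box
  rw [eval_finsetSum]
  simp

/-- bounds for the norm -/
theorem normPoly_bounds (p : (𝓞 K)[X]) (N n : ℕ) (hN : p.natDegree ≤ N)
    (hn : Module.finrank ℚ K ≤ n) (B : ℝ) (hB : 1 ≤ B) (hp : ∀ σ : K →+* ℂ, ∀ i,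
      ‖emb σ (p.coeff i)‖ ≤ B) (hp0 : p ≠ 0) :
    ∃ P : ℤ[X], P ≠ 0 ∧ P.natDegree ≤ n * N ∧ (∀ i, |(P.coeff i : ℝ)| ≤ ((N + 1) * B) ^ n) ∧
      ∀ (θ : ℂ) (σ : K →+* ℂ), ‖aeval θ P‖ ≤
        ‖(p.map (emb σ)).eval θ‖ * ((N + 1) * B * max 1 ‖θ‖ ^ N) ^ n := by
  classical
  obtain ⟨P, hP⟩ := normPoly_int K p
  have hcard : Fintype.card (K →+* ℂ) ≤ n := by
    rw [NumberField.Embeddings.card]; exact hn
  have hN1 : (1 : ℝ) ≤ N + 1 := by
    have : (0 : ℝ) ≤ N := Nat.cast_nonneg N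
    linarith
  have hNB : 1 ≤ ((N : ℝ) + 1) * B := one_le_mul_of_one_le_of_one_le hN1 hB
  have hinj : Function.Injective (Int.castRingHom ℂ) := (Int.castRingHom ℂ).injective_int
  have hembinj : ∀ σ : K →+* ℂ, Function.Injective (emb σ) := fun σ =>
    σ.injective.comp RingOfIntegers.coe_injective
  have hmapdeg : ∀ σ : K →+* ℂ, (p.map (emb σ)).natDegree ≤ N := fun σ =>
    natDegree_map_le.trans hN
  refine ⟨P, ?_, ?_, ?_, ?_⟩
  · rintro rfl
    rw [Polynomial.map_zero] at hP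
    have h1 : ∏ σ : K →+* ℂ, p.map (emb σ) = 0 := hP.symm
    rw [Finset.prod_eq_zero_iff] at h1
    obtain ⟨σ, _, h2⟩ := h1
    rw [Polynomial.map_eq_zero_iff (hembinj σ)] at h2
    exact hp0 h2
  · rw [← natDegree_map_eq_of_injective hinj, hP]
    unfold normPoly
    refine (natDegree_prod_le _ _).trans ?_
    refine (Finset.sum_le_card_nsmul _ _ N fun σ _ => hmapdeg σ).trans ?_
    rw [Finset.card_univ, smul_eq_mul]
    exact Nat.mul_le_mul_right _ hcard
  · intro i
    have hmaj : Maj (normPoly K p) (∏ _σ : K →+* ℂ, box N B) := by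
      refine Maj.prod _ _ _ fun σ _ j => ?_
      rw [box_coeff, coeff_map]
      split_ifs with hj
      · exact hp σ j
      · rw [mem_range] at hj
        rw [coeff_eq_zero_of_natDegree_lt (by omega), map_zero, norm_zero]
    have h1 := hmaj.le_eval i
    rw [Finset.prod_const, Finset.card_univ, eval_pow, box_eval, ← hP, coeff_map] at h1
    have h2 : ‖(Int.castRingHom ℂ) (P.coeff i)‖ = |(P.coeff i : ℝ)| := by
      rw [eq_intCast, Complex.norm_intCast]
    rw [h2] at h1
    exact h1.trans (pow_le_pow_right₀ hNB hcard)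
  · intro θ σ
    have h1 : aeval θ P = ∏ τ : K →+* ℂ, (p.map (emb τ)).eval θ := by
      have h2 : aeval θ P = (P.map (Int.castRingHom ℂ)).eval θ := by
        rw [eval_map, aeval_def]
        rfl
      rw [h2, hP]
      unfold normPoly
      rw [eval_prod]
    obtain ⟨M, hM⟩ : ∃ M : ℝ, M = ((N : ℝ) + 1) * B * max 1 ‖θ‖ ^ N := ⟨_, rfl⟩
    have hM1 : 1 ≤ M := by
      rw [hM]
      exact one_le_mul_of_one_le_of_one_le hNB (one_le_pow₀ (le_max_left _ _))
    have hval : ∀ τ : K →+* ℂ, ‖(p.map (emb τ)).eval θ‖ ≤ M := by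
      intro τ
      rw [eval_eq_sum_range' (Nat.lt_succ_of_le (hmapdeg τ)), hM]
      refine (norm_sum_le _ _).trans ?_
      have h3 : ∀ j ∈ range (N + 1), ‖(p.map (emb τ)).coeff j * θ ^ j‖ ≤
          B * max 1 ‖θ‖ ^ N := by
        intro j hj
        rw [mem_range] at hj
        rw [norm_mul, norm_pow, coeff_map]
        refine mul_le_mul (hp τ j) ?_ (by positivity) (by linarith)
        calc ‖θ‖ ^ j ≤ (max 1 ‖θ‖) ^ j :=
              pow_le_pow_left₀ (norm_nonneg _) (le_max_right _ _) _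
          _ ≤ (max 1 ‖θ‖) ^ N := pow_le_pow_right₀ (le_max_left _ _) (by omega)
      refine (Finset.sum_le_card_nsmul _ _ _ h3).trans ?_
      rw [Finset.card_range, nsmul_eq_mul]
      push_cast
      rw [mul_assoc]
    rw [h1, norm_prod, ← Finset.mul_prod_erase univ _ (mem_univ σ), ← hM]
    refine mul_le_mul_of_nonneg_left ?_ (norm_nonneg _)
    calc ∏ τ ∈ univ.erase σ, ‖(p.map (emb τ)).eval θ‖ ≤ ∏ _τ ∈ univ.erase σ, M :=
          Finset.prod_le_prod (fun τ _ => norm_nonneg _) fun τ _ => hval τ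
      _ = M ^ (univ.erase σ).card := Finset.prod_const _
      _ ≤ M ^ n := pow_le_pow_right₀ hM1 ((Finset.card_erase_le).trans (by
          rw [Finset.card_univ]; exact hcard))

end

end Pool.Agent.Y39.DI
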