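import Pool.Agent.Y39.DI.AlgMeas
import Pool.Agent.Y39.DI.CF

/-!
# Algebraic approximations and continued fractions at a given precision
-/

set_option autoImplicit false

namespace Pool.Agent.Y39.DI

open Polynomial Finset Pool.Agent.Y928.QN Pool.Agent.Y39.DH
open Pool.Agent.TH456.TM (MeasT)

lemma measT_of {θ : ℝ} (h : HasMeasure θ) : MeasT (θ : ℂ) := by
  intro D
  obtain ⟨κ, c, hκ, hc, hm⟩ := h D
  refine ⟨κ, c, hκ, hc, fun P hP hD H hH hb => ?_⟩
  rw [← Pool.Agent.TH456.TM.abs_aeval]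
  exact hm P hP hD H hH hb

lemma prod_lower (x : ℂ) (ε : ℝ) (hε : 0 < ε) (m : Multiset ℂ) (h : ∀ r ∈ m, ε ≤ ‖x - r‖) :
    ε ^ (Multiset.card m) ≤ ‖(m.map fun r => x - r).prod‖ := by
  induction m using Multiset.induction_on with
  | empty => simp
  | cons a m ih =>
    rw [Multiset.map_cons, Multiset.prod_cons, Multiset.card_cons, norm_mul, pow_succ, mul_comm]
    exact mul_le_mul (h a (Multiset.mem_cons_self _ _))
      (ih fun r hr => h r (Multiset.mem_cons_of_mem hr)) (by positivity) (norm_nonneg _)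

/-- a root near a point where the polynomial is small -/
lemma near_root (Q : ℤ[X]) (hQ : Q ≠ 0) (d : ℕ) (hd : Q.natDegree ≤ d) (x : ℂ)
    (ε : ℝ) (hε : 0 < ε) (hε1 : ε ≤ 1) (h : ‖aeval x Q‖ < ε ^ d) :
    ∃ ξ : ℂ, aeval ξ Q = 0 ∧ ‖x - ξ‖ ≤ ε := by
  by_contra hcon
  push Not at hcon
  have hinj : Function.Injective (Int.castRingHom ℂ) := (Int.castRingHom ℂ).injective_int
  obtain ⟨q, hq⟩ : ∃ q, q = Q.map (Int.castRingHom ℂ) := ⟨_, rfl⟩
  have hq0 : q ≠ 0 := by rw [hq]; exact (Polynomial.map_ne_zero_iff hinj).mpr hQ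
  have hev : ∀ z : ℂ, aeval z Q = q.eval z := by
    intro z
    rw [hq, eval_map, aeval_def]
    rfl
  have hsplit : q.Splits := IsAlgClosed.splits q
  have h1 : q.eval x = q.leadingCoeff * (q.roots.map fun r => x - r).prod :=
    hsplit.eval_eq_prod_roots x
  have hlc : 1 ≤ ‖q.leadingCoeff‖ := by
    rw [hq, leadingCoeff_map_of_injective hinj, eq_intCast, Complex.norm_intCast]
    exact_mod_cast Int.one_le_abs (leadingCoeff_ne_zero.mpr hQ)
  have h2 : ε ^ (Multiset.card q.roots) ≤ ‖(q.roots.map fun r => x - r).prod‖ := by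
    refine prod_lower x ε hε _ fun r hr => ?_
    rw [mem_roots hq0, IsRoot.def, ← hev] at hr
    exact (hcon r hr).le
  have h3 : Multiset.card q.roots ≤ d := by
    refine (card_roots' q).trans ?_
    rw [hq]
    exact natDegree_map_le.trans hd
  have h4 : ε ^ d ≤ ε ^ (Multiset.card q.roots) := pow_le_pow_of_le_one hε.le hε1 h3
  have h5 : ‖aeval x Q‖ = ‖q.leadingCoeff‖ * ‖(q.roots.map fun r => x - r).prod‖ := by
    rw [hev, h1, norm_mul]
  have h6 : ‖(q.roots.map fun r => x - r).prod‖ ≤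
      ‖q.leadingCoeff‖ * ‖(q.roots.map fun r => x - r).prod‖ :=
    le_mul_of_one_le_left (norm_nonneg _) hlc
  linarith

/-- a polynomial relation from an algebraic dependence -/
lemma relation {J : ℕ} (x : Fin J → ℝ) (θ : ℝ)
    (h : IsAlgebraic (Algebra.adjoin ℤ (Set.range x)) θ) :
    ∃ (B : Polynomial (MvPolynomial (Fin J) ℤ)) (i0 : ℕ),
      ∑ i ∈ range (B.natDegree + 1), MvPolynomial.aeval x (B.coeff i) * θ ^ i = 0 ∧
      MvPolynomial.aeval x (B.coeff i0) ≠ 0 := by
  obtain ⟨A, hA⟩ : ∃ A : Subalgebra ℤ ℝ, A = Algebra.adjoin ℤ (Set.range x) := ⟨_, rfl⟩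
  rw [← hA] at h
  obtain ⟨p, hp, hpθ⟩ := h
  have hxA : ∀ j, x j ∈ A := fun j => by rw [hA]; exact Algebra.subset_adjoin ⟨j, rfl⟩
  set x' : Fin J → A := fun j => ⟨x j, hxA j⟩ with hx'
  set φ : MvPolynomial (Fin J) ℤ →ₐ[ℤ] A := MvPolynomial.aeval x' with hφ
  have hφx : ∀ f : MvPolynomial (Fin J) ℤ, ((φ f : A) : ℝ) = MvPolynomial.aeval x f := by
    intro f
    have h1 : ((φ f : A) : ℝ) = A.val (MvPolynomial.aeval x' f) := rfl
    rw [h1, MvPolynomial.comp_aeval_apply]
    rfl
  have hsurj : Function.Surjective φ := by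
    rintro ⟨z, hz⟩
    rw [hA, Algebra.adjoin_range_eq_range_aeval] at hz
    obtain ⟨f, hf⟩ := hz
    exact ⟨f, Subtype.ext (by rw [hφx]; exact hf)⟩
  obtain ⟨B, hB⟩ := Polynomial.map_surjective (φ : MvPolynomial (Fin J) ℤ →+* A) hsurj p
  have hco : ∀ i, ((p.coeff i : A) : ℝ) = MvPolynomial.aeval x (B.coeff i) := by
    intro i
    rw [← hB, coeff_map]
    exact hφx _
  have hdeg : p.natDegree < B.natDegree + 1 := by
    rw [← hB]
    exact Nat.lt_succ_of_le natDegree_map_le
  rw [aeval_eq_sum_range' hdeg] at hpθ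
  obtain ⟨i0, hi0⟩ : ∃ i, p.coeff i ≠ 0 := by
    by_contra hcon
    push Not at hcon
    exact hp (Polynomial.ext fun i => by rw [hcon i, coeff_zero])
  refine ⟨B, i0, ?_, ?_⟩
  · rw [← hpθ]
    refine Finset.sum_congr rfl fun i _ => ?_
    rw [← hco]
    rfl
  · rw [← hco]
    intro h
    exact hi0 (Subtype.ext h)

/-- the measure for real numbers -/
theorem real_meas {J : ℕ} (x : Fin J → ℝ) (θ : ℝ) (hθ : HasMeasure θ)
    (h : IsAlgebraic (Algebra.adjoin ℤ (Set.range x)) θ) (d : ℕ) :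
    ∃ κ c : ℝ, 0 ≤ κ ∧ 0 < c ∧ ∀ H : ℕ, 1 ≤ H → ∀ ξ : Fin J → ℂ, (∀ j, AlgHt d H (ξ j)) →
      ∀ δ : ℝ, 0 ≤ δ → (∀ j, ‖(x j : ℂ) - ξ j‖ ≤ δ) → c ≤ (H : ℝ) ^ κ * δ := by
  obtain ⟨B, i0, h1, h2⟩ := relation x θ h
  have hcast : ∀ f : MvPolynomial (Fin J) ℤ,
      ((MvPolynomial.aeval x f : ℝ) : ℂ) = MvPolynomial.aeval (fun j => (x j : ℂ)) f := by
    intro f
    have := MvPolynomial.comp_aeval_apply (f := x) (Complex.ofRealHom.toIntAlgHom) f
    exact this
  refine alg_meas (fun j => (x j : ℂ)) (θ : ℂ) (measT_of hθ) B ?_ i0 ?_ d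
  · have h3 := congrArg (fun z : ℝ => (z : ℂ)) h1
    simp only [Complex.ofReal_sum, Complex.ofReal_mul, Complex.ofReal_pow, Complex.ofReal_zero]
      at h3
    rw [← h3]
    exact Finset.sum_congr rfl fun i _ => by rw [hcast]
  · rw [← hcast]
    exact_mod_cast h2

lemma algHt_mono {D D' H H' : ℕ} {x : ℂ} (h : AlgHt D H x) (hD : D ≤ D') (hH : H ≤ H') :
    AlgHt D' H' x := by
  obtain ⟨P, h1, h2, h3, h4⟩ := h
  exact ⟨P, h1, h2.trans hD, fun i => (h3 i).trans (by exact_mod_cast hH), h4⟩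

lemma algHt_pos {D H : ℕ} {x : ℂ} (h : AlgHt D H x) : 1 ≤ H := by
  obtain ⟨P, h1, -, h3, -⟩ := h
  by_contra hcon
  have hH : H = 0 := by omega
  apply h1
  ext i
  have h4 := h3 i
  rw [hH] at h4
  simpa using h4

lemma algHt_rat (q : ℚ) : ∃ H : ℕ, AlgHt 1 H (q : ℂ) := by
  refine ⟨q.num.natAbs + q.den, C (q.den : ℤ) * X - C q.num, ?_, ?_, ?_, ?_⟩
  · intro h
    have h1 := congrArg (fun p => p.coeff 1) h
    simp only [coeff_sub, coeff_C_mul, coeff_X, coeff_C, coeff_zero] at h1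
    norm_num at h1
  · compute_degree
  · intro i
    simp only [coeff_sub, coeff_C_mul, coeff_X, coeff_C]
    have h2 : |q.num| = (q.num.natAbs : ℤ) := Int.abs_eq_natAbs _
    by_cases hi : i = 0
    · subst hi
      simp only [if_true]
      norm_num
    · by_cases hi1 : 1 = i
      · subst hi1
        norm_num
      · simp [hi, hi1]
        positivity
  · rw [map_sub, map_mul, aeval_X, aeval_C, aeval_C]
    simp only [algebraMap_int_eq, eq_intCast, Int.cast_natCast]
    have h1 : ((q.den : ℚ) : ℂ) * (q : ℂ) = ((q.num : ℚ) : ℂ) := by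
      rw [← Rat.cast_mul, mul_comm, Rat.mul_den_eq_num]
    push_cast at h1
    rw [h1]
    ring

/-- At the precision `X ≥ 1` the real number `x` is not simple: it is irrational, every algebraic
number of degree at most `d` at distance at most `1 / X` from `x` has logarithmic height at least
`c log X - C`, and if the partial quotients of `x` with numbers smaller than `N`, where
`q_N ≥ X`, agree with an eventually periodic sequence with preperiod `r` and period `s` then
`log q_(r+s) ≥ c log X - C`. -/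
def Rich (d : ℕ) (c C X x : ℝ) : Prop :=
  Irrational x ∧
  (∀ (ξ : ℂ) (H : ℕ), AlgHt d H ξ → ‖(x : ℂ) - ξ‖ ≤ 1 / X → c * Real.log X - C ≤ Real.log H) ∧
  ∀ N r s : ℕ, 1 ≤ s → (∀ i, r ≤ i → i + s < N → quot x (i + s) = quot x i) →
    X ≤ den (quot x) N → c * Real.log X - C ≤ Real.log (den (quot x) (r + s))

/-- **Some number is not simple, at every precision.** -/
theorem rich_of_algebraic {J : ℕ} (x : Fin J → ℝ) (θ : ℝ) (hθ : HasMeasure θ)
    (h : IsAlgebraic (Algebra.adjoin ℤ (Set.range x)) θ) (d : ℕ) :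
    ∃ c C : ℝ, 0 < c ∧ 0 ≤ C ∧ ∀ X : ℝ, 1 ≤ X → ∃ j, Rich d c C X (x j) := by
  classical
  obtain ⟨κ, c0, hκ, hc0, hmeas⟩ := real_meas x θ hθ h (max d 2)
  -- heights of the rational ones
  have hrat : ∀ j, ∃ H0 : ℕ, ¬ Irrational (x j) → AlgHt 1 H0 (x j : ℂ) := by
    intro j
    by_cases hj : Irrational (x j)
    · exact ⟨0, fun h => absurd hj h⟩
    · unfold Irrational at hj
      push Not at hj
      obtain ⟨q, hq⟩ := hj
      obtain ⟨H0, hH0⟩ := algHt_rat q
      refine ⟨H0, fun _ => ?_⟩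
      rw [← hq]
      convert hH0 using 1
      push_cast
      rfl
  choose H0 hH0 using hrat
  obtain ⟨A, hA⟩ : ∃ A : ℝ, A = 1 + ∑ j, (4 * (|x j| + 2) ^ 2 + (|x j| + 3) + H0 j) := ⟨_, rfl⟩
  have hterm : ∀ j, 0 ≤ 4 * (|x j| + 2) ^ 2 + (|x j| + 3) + (H0 j : ℝ) := fun j => by positivity
  have hA1 : 1 ≤ A := by
    rw [hA]
    have : 0 ≤ ∑ j, (4 * (|x j| + 2) ^ 2 + (|x j| + 3) + (H0 j : ℝ)) :=
      Finset.sum_nonneg fun j _ => hterm j
    linarith
  have hAj : ∀ j, 4 * (|x j| + 2) ^ 2 + (|x j| + 3) + (H0 j : ℝ) ≤ A := by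
    intro j
    rw [hA]
    have := Finset.single_le_sum (f := fun j => 4 * (|x j| + 2) ^ 2 + (|x j| + 3) + (H0 j : ℝ))
      (fun j _ => hterm j) (mem_univ j)
    linarith
  obtain ⟨c, hc⟩ : ∃ c : ℝ, c = 1 / (4 * (κ + 2)) := ⟨_, rfl⟩
  have hκ2 : 0 < κ + 2 := by linarith
  have hc1 : 0 < c := by rw [hc]; positivity
  have hcκ : 2 * c * (κ + 1) ≤ 1 / 2 := by
    rw [hc]
    rw [mul_one_div, div_mul_eq_mul_div, div_le_div_iff₀ (by positivity) (by norm_num)]
    nlinarith
  have hc4 : 2 * c ≤ 1 / 4 := by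
    rw [hc, mul_one_div, div_le_div_iff₀ (by positivity) (by norm_num)]
    linarith
  obtain ⟨M1, hM1⟩ : ∃ M1 : ℝ, M1 = (4 * A) ^ κ * (2 * A) / c0 := ⟨_, rfl⟩
  have hM10 : 0 < M1 := by rw [hM1]; positivity
  obtain ⟨X0, hX0⟩ : ∃ X0 : ℝ, X0 = (M1 + 2 * A) ^ 2 := ⟨_, rfl⟩
  have hX01 : 1 ≤ X0 := by
    rw [hX0]
    exact one_le_pow₀ (by linarith)
  have hlX0 : 0 ≤ Real.log X0 := Real.log_nonneg hX01
  refine ⟨c, c * Real.log X0 + 1, hc1, by positivity, fun X hX => ?_⟩
  by_contra hcon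
  push Not at hcon
  have hX' : 0 < X := by linarith
  have hdenpos : ∀ j, Irrational (x j) → ∀ r s : ℕ, 1 ≤ s →
      (1 : ℝ) ≤ den (quot (x j)) (r + s) := by
    intro j hj r s hs
    rw [den_eq]
    obtain ⟨l, hl⟩ : ∃ l, r + s = l + 1 := ⟨r + s - 1, by omega⟩
    rw [hl]
    exact_mod_cast (dn_nonneg _ (isCF hj).pos l).2.1
  rcases le_or_gt X X0 with hXX | hXX
  · -- small precision: all the numbers are rational
    have hneg : c * Real.log X - (c * Real.log X0 + 1) < 0 := by
      have := Real.log_le_log hX' hXX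
      nlinarith
    have hall : ∀ j, ¬ Irrational (x j) := by
      intro j hj
      apply hcon j
      refine ⟨hj, fun ξ H hξ _ => ?_, fun N r s hs _ _ => ?_⟩
      · have h1 : (1 : ℝ) ≤ H := by exact_mod_cast algHt_pos hξ
        have := Real.log_nonneg h1
        linarith
      · have := Real.log_nonneg (hdenpos j hj r s hs)
        linarith
    have hfin := hmeas ⌈A⌉₊ (Nat.one_le_ceil_iff.mpr (by linarith)) (fun j => (x j : ℂ))
      (fun j => algHt_mono (hH0 j (hall j)) (by omega) (by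
        have h1 := hAj j
        have h2 : (H0 j : ℝ) ≤ ⌈A⌉₊ := by
          refine le_trans ?_ (Nat.le_ceil A)
          have : 0 ≤ 4 * (|x j| + 2) ^ 2 + (|x j| + 3) := by positivity
          linarith
        exact_mod_cast h2)) 0 le_rfl (fun j => by simp)
    rw [mul_zero] at hfin
    linarith
  · obtain ⟨δ, hδ⟩ : ∃ δ : ℝ, δ = 2 * A * X ^ (2 * c - 1) := ⟨_, rfl⟩
    have hδ0 : 0 < δ := by rw [hδ]; positivity
    have hsq : M1 + 2 * A < X ^ (1 / 2 : ℝ) := by
      rw [← Real.sqrt_eq_rpow]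
      apply Real.lt_sqrt_of_sq_lt
      rw [← hX0]
      exact hXX
    have hXh : X ^ (-(1 / 2) : ℝ) * X ^ (1 / 2 : ℝ) = 1 := by
      rw [← Real.rpow_add hX']
      norm_num
    have hXh0 : 0 < X ^ (-(1 / 2) : ℝ) := Real.rpow_pos_of_pos hX' _
    have hδh : δ ≤ 2 * A * X ^ (-(1 / 2) : ℝ) := by
      rw [hδ]
      refine mul_le_mul_of_nonneg_left ?_ (by linarith)
      exact Real.rpow_le_rpow_of_exponent_le hX (by linarith)
    have hδ1 : δ ≤ 1 := by
      refine hδh.trans ?_
      have : X ^ (-(1 / 2) : ℝ) * (M1 + 2 * A) ≤ X ^ (-(1 / 2) : ℝ) * X ^ (1 / 2 : ℝ) :=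
        mul_le_mul_of_nonneg_left hsq.le hXh0.le
      nlinarith
    have hX2c : 1 ≤ X ^ (2 * c) := Real.one_le_rpow hX (by linarith)
    obtain ⟨H, hH⟩ : ∃ H : ℕ, H = ⌈2 * A * X ^ (2 * c)⌉₊ := ⟨_, rfl⟩
    have hHge : 2 * A * X ^ (2 * c) ≤ (H : ℝ) := by rw [hH]; exact Nat.le_ceil _
    have h2A : 1 ≤ 2 * A * X ^ (2 * c) := by nlinarith
    have hHle : (H : ℝ) ≤ 4 * A * X ^ (2 * c) := by
      have := (Nat.ceil_lt_add_one (by linarith : (0 : ℝ) ≤ 2 * A * X ^ (2 * c))).le
      rw [hH]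
      linarith
    have hH1 : 1 ≤ H := by
      have : (1 : ℝ) ≤ H := by linarith
      exact_mod_cast this
    have hsimple : ∀ j, ∃ ξ : ℂ, AlgHt (max d 2) H ξ ∧ ‖(x j : ℂ) - ξ‖ ≤ δ := by
      intro j
      have hAj' := hAj j
      have hxj := abs_nonneg (x j)
      have hX2cA : A ≤ 2 * A * X ^ (2 * c) := by nlinarith
      by_cases hirr : Irrational (x j)
      · have h1 := hcon j
        unfold Rich at h1
        rw [not_and_or, not_and_or] at h1
        rcases h1 with h1 | h1 | h1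
        · exact absurd hirr h1
        · push Not at h1
          obtain ⟨ξ, H', h2, h3, h4⟩ := h1
          have h5 : (H' : ℝ) ≤ X ^ c := by
            have h6 : Real.log H' ≤ c * Real.log X := by
              have : 0 ≤ c * Real.log X0 := by positivity
              linarith
            rw [← Real.log_rpow hX'] at h6
            have h7 : (0 : ℝ) < H' := by exact_mod_cast algHt_pos h2
            exact (Real.log_le_log_iff h7 (Real.rpow_pos_of_pos hX' _)).mp h6
          refine ⟨ξ, algHt_mono h2 (le_max_left _ _) ?_, h3.trans ?_⟩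
          · have h6 : X ^ c ≤ X ^ (2 * c) := Real.rpow_le_rpow_of_exponent_le hX (by linarith)
            have h7 : X ^ (2 * c) ≤ 2 * A * X ^ (2 * c) := by nlinarith
            have : (H' : ℝ) ≤ H := by linarith
            exact_mod_cast this
          · rw [hδ]
            have h6 : 1 / X = X ^ (-1 : ℝ) := by rw [Real.rpow_neg_one, one_div]
            have h7 : X ^ (-1 : ℝ) ≤ X ^ (2 * c - 1) :=
              Real.rpow_le_rpow_of_exponent_le hX (by linarith)
            have h8 : 0 < X ^ (2 * c - 1) := Real.rpow_pos_of_pos hX' _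
            rw [h6]
            nlinarith
        · push Not at h1
          obtain ⟨N, r, s, hs, hpat, hN, hlog⟩ := h1
          obtain ⟨q, hq⟩ : ∃ q : ℝ, q = (den (quot (x j)) (r + s) : ℝ) := ⟨_, rfl⟩
          have hq1 : 1 ≤ q := by rw [hq]; exact hdenpos j hirr r s hs
          have hqX : q ≤ X ^ c := by
            have h6 : Real.log q ≤ c * Real.log X := by
              have : 0 ≤ c * Real.log X0 := by positivity
              rw [hq]
              linarith
            rw [← Real.log_rpow hX'] at h6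
            exact (Real.log_le_log_iff (by linarith) (Real.rpow_pos_of_pos hX' _)).mp h6
          have hq2 : q ^ 2 ≤ X ^ (2 * c) := by
            have : X ^ (2 * c) = (X ^ c) ^ 2 := by
              rw [← Real.rpow_natCast, ← Real.rpow_mul hX'.le]
              congr 1
              push_cast
              ring
            rw [this]
            exact pow_le_pow_left₀ (by linarith) hqX 2
          have hrsN : r + s < N := by
            by_contra hle
            push Not at hle
            have h6 : den (quot (x j)) N ≤ den (quot (x j)) (r + s) := by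
              rw [den_eq, den_eq]
              exact dn_mono _ (isCF hirr).pos hle
            have h7 : (den (quot (x j)) N : ℝ) ≤ q := by rw [hq]; exact_mod_cast h6
            have h8 : X ≤ X ^ c := hN.trans (h7.trans hqX)
            have h9 : X ^ c < X ^ (1 : ℝ) := Real.rpow_lt_rpow_of_exponent_lt (by linarith)
              (by linarith)
            rw [Real.rpow_one] at h9
            linarith
          obtain ⟨Q, hQ0, hQd, hQc, hQv⟩ := cf_poly hirr N r s hs hrsN hpat
          rw [← hq] at hQc hQv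
          have hNX : X ^ 2 ≤ (den (quot (x j)) N : ℝ) ^ 2 := pow_le_pow_left₀ hX'.le hN 2
          have hsmall : |aeval (x j) Q| < δ ^ 2 := by
            have h6 : |aeval (x j) Q| * X ^ 2 ≤ (A * X ^ (2 * c)) ^ 2 := by
              refine (mul_le_mul_of_nonneg_left hNX (abs_nonneg _)).trans (hQv.trans ?_)
              refine pow_le_pow_left₀ (by positivity) ?_ 2
              refine mul_le_mul ?_ hq2 (by positivity) (by linarith)
              have : 0 ≤ 4 * (|x j| + 2) ^ 2 + (H0 j : ℝ) := by positivity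
              linarith
            have h7 : (A * X ^ (2 * c)) ^ 2 < (δ * X) ^ 2 := by
              have h8 : δ * X = 2 * (A * X ^ (2 * c)) := by
                rw [hδ, Real.rpow_sub hX', Real.rpow_one]
                field_simp
              rw [h8]
              have : 0 < A * X ^ (2 * c) := by positivity
              nlinarith
            have h8 : |aeval (x j) Q| * X ^ 2 < δ ^ 2 * X ^ 2 := by
              rw [← mul_pow]; linarith
            exact lt_of_mul_lt_mul_right h8 (by positivity)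
          obtain ⟨ξ, h6, h7⟩ := near_root Q hQ0 2 hQd (x j : ℂ) δ hδ0 hδ1 (by
            rw [← Pool.Agent.TH456.TM.abs_aeval]; exact hsmall)
          refine ⟨ξ, ⟨Q, hQ0, hQd.trans (le_max_right _ _), fun i => ?_, h6⟩, h7⟩
          have h8 : |(Q.coeff i : ℝ)| ≤ H := by
            refine (hQc i).trans (le_trans ?_ hHge)
            have h9 : 4 * (|x j| + 2) ^ 2 ≤ A := by
              have : 0 ≤ (|x j| + 3) + (H0 j : ℝ) := by positivity
              linarith
            calc 4 * (|x j| + 2) ^ 2 * q ^ 2 ≤ A * X ^ (2 * c) :=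
                  mul_le_mul h9 hq2 (by positivity) (by linarith)
              _ ≤ 2 * A * X ^ (2 * c) := by nlinarith
          exact_mod_cast h8
      · refine ⟨(x j : ℂ), algHt_mono (hH0 j hirr) (by omega) ?_, by simpa using hδ0.le⟩
        have h1 : (H0 j : ℝ) ≤ H := by
          have : 0 ≤ 4 * (|x j| + 2) ^ 2 + (|x j| + 3) := by positivity
          linarith
        exact_mod_cast h1
    choose ξ hξ1 hξ2 using hsimple
    have hfin := hmeas H hH1 ξ hξ1 δ hδ0.le hξ2
    have h1 : (H : ℝ) ^ κ * δ ≤ (4 * A * X ^ (2 * c)) ^ κ * δ :=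
      mul_le_mul_of_nonneg_right (Real.rpow_le_rpow (Nat.cast_nonneg _) hHle hκ) hδ0.le
    have h2 : (4 * A * X ^ (2 * c)) ^ κ * δ = (4 * A) ^ κ * (2 * A) *
        X ^ (2 * c * (κ + 1) - 1) := by
      rw [Real.mul_rpow (by linarith) (by positivity), hδ, ← Real.rpow_mul hX'.le]
      have e1 : X ^ (2 * c * (κ + 1) - 1) = X ^ (2 * c * κ) * X ^ (2 * c - 1) := by
        rw [← Real.rpow_add hX']
        congr 1
        ring
      rw [e1]
      ring
    have h3 : X ^ (2 * c * (κ + 1) - 1) ≤ X ^ (-(1 / 2) : ℝ) :=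
      Real.rpow_le_rpow_of_exponent_le hX (by linarith)
    have h4 : c0 ≤ (4 * A) ^ κ * (2 * A) * X ^ (-(1 / 2) : ℝ) := by
      refine hfin.trans (h1.trans (h2.le.trans ?_))
      exact mul_le_mul_of_nonneg_left h3 (by positivity)
    have h5 : M1 * X ^ (-(1 / 2) : ℝ) * c0 = (4 * A) ^ κ * (2 * A) * X ^ (-(1 / 2) : ℝ) := by
      rw [hM1]
      field_simp
    have h6 : M1 * X ^ (-(1 / 2) : ℝ) < 1 := by
      have : X ^ (-(1 / 2) : ℝ) * (M1 + 2 * A) < X ^ (-(1 / 2) : ℝ) * X ^ (1 / 2 : ℝ) :=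
        mul_lt_mul_of_pos_left hsq hXh0
      nlinarith
    have h7 : M1 * X ^ (-(1 / 2) : ℝ) * c0 < 1 * c0 := mul_lt_mul_of_pos_right h6 hc0
    linarith

end Pool.Agent.Y39.DI
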